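import Mathlib
import Pool.Agent.H819.LN.Stat

/-!
# Closed forms across small closed sets
-/

set_option autoImplicit false

open Set Filter Topology MeasureTheory Metric
open scoped ContDiff ENNReal NNReal RealInnerProductSpace

noncomputable section

namespace Pool.Agent.H819.DR

open Pool.Agent.Y501.SY (E)
open Pool.Agent.H819.LN (WeakClosed int_term)

variable {d : ℕ}

namespace AcrossAux

/-- a surjective linear map onto `ℝ ^ (d - 3)` which kills three given vectors -/
theorem exists_proj (hd : 3 ≤ d) (a b c : E d) :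
    ∃ p : E d →L[ℝ] (Fin (d - 3) → ℝ), Function.Surjective p ∧ p a = 0 ∧ p b = 0 ∧ p c = 0 := by
  set W : Submodule ℝ (E d) := Submodule.span ℝ ({a, b, c} : Set (E d)) with hW
  have hWr : Module.finrank ℝ W ≤ 3 := by
    have h1 := finrank_span_finset_le_card (R := ℝ) (({a, b, c} : Finset (E d)))
    have h2 : (({a, b, c} : Finset (E d)) : Set (E d)) = {a, b, c} := by simp
    rw [h2] at h1
    exact h1.trans Finset.card_le_three
  have hq : d - 3 ≤ Module.finrank ℝ (E d ⧸ W) := by
    have h1 := W.finrank_quotient_add_finrank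
    have h2 : Module.finrank ℝ (E d) = d := by simp
    omega
  set m := Module.finrank ℝ (E d ⧸ W) with hm
  let e : (E d ⧸ W) ≃ₗ[ℝ] (Fin m → ℝ) :=
    LinearEquiv.ofFinrankEq _ _ (by simp [hm])
  let r : (Fin m → ℝ) →ₗ[ℝ] (Fin (d - 3) → ℝ) := LinearMap.funLeft ℝ ℝ (Fin.castLE hq)
  have hr : Function.Surjective r :=
    LinearMap.funLeft_surjective_of_injective _ _ _ (Fin.castLE_injective hq)
  let p : E d →ₗ[ℝ] (Fin (d - 3) → ℝ) := r ∘ₗ e.toLinearMap ∘ₗ W.mkQ
  have h0 : ∀ v ∈ W, p v = 0 := by
    intro v hv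
    have : W.mkQ v = 0 := by simpa using hv
    show r (e (W.mkQ v)) = 0
    rw [this, map_zero, map_zero]
  refine ⟨LinearMap.toContinuousLinearMap p, ?_, ?_, ?_, ?_⟩
  · exact hr.comp (e.surjective.comp W.mkQ_surjective)
  · exact h0 a (Submodule.subset_span (by simp))
  · exact h0 b (Submodule.subset_span (by simp))
  · exact h0 c (Submodule.subset_span (by simp))

/-- the preimage of the image of a small set is a null set -/
theorem null_preimage {k : ℕ} (p : E d →L[ℝ] (Fin k → ℝ)) (hp : Function.Surjective p)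
    {S : Set (E d)} (hS : IsCompact S) (h0 : μH[(k : ℝ)] S = 0) :
    ∀ᵐ z : E d, p z ∉ p '' S := by
  have h1 := p.lipschitz.lipschitzOnWith (s := S)
  have h2 := h1.hausdorffMeasure_image_le (d := (k : ℝ)) (by positivity)
  rw [h0, mul_zero] at h2
  have h3 : volume (p '' S) = 0 := by
    have h4 := MeasureTheory.hausdorffMeasure_pi_real (ι := Fin k)
    rw [Fintype.card_fin] at h4
    rw [← h4]
    exact le_antisymm h2 (zero_le)
  have h5 : MeasurableSet (p '' S)ᶜ := (hS.image p.continuous).isClosed.measurableSet.compl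
  have h6 : ∀ᵐ y : Fin k → ℝ, y ∈ (p '' S)ᶜ := by
    rw [ae_iff]
    have h7 : {y : Fin k → ℝ | ¬ y ∈ (p '' S)ᶜ} = p '' S := by
      ext y; simp only [mem_ofPred_eq, mem_compl_iff, not_not]
    rw [h7]
    exact h3
  exact (ae_comp_linearMap_mem_iff (p : E d →ₗ[ℝ] (Fin k → ℝ)) volume volume hp h5).2 h6

/-- smooth cut-offs -/
theorem exists_cutoff {k : ℕ} {Z : Set (Fin k → ℝ)} (hZ : IsClosed Z) :
    ∃ (f : (Fin k → ℝ) → ℝ) (g : ℕ → (Fin k → ℝ) → ℝ), Continuous f ∧ (∀ y, y ∈ Z → f y = 0) ∧
      (∀ n, ContDiff ℝ ∞ (g n)) ∧ (∀ n y, 0 ≤ g n y ∧ g n y ≤ 1) ∧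
      (∀ n : ℕ, ∀ y, (n : ℝ) * f y < 1 → g n y = 0) ∧
      (∀ y, y ∉ Z → Tendsto (fun n => g n y) atTop (𝓝 1)) := by
  obtain ⟨f, hf, hfs, hfr⟩ := hZ.isOpen_compl.exists_contDiff_support_eq (n := ⊤)
  have hf0 : ∀ y, 0 ≤ f y := fun y => (hfr (mem_range_self y)).1
  refine ⟨f, fun n y => Real.smoothTransition (n * f y - 1), hfs.continuous, ?_, ?_, ?_, ?_, ?_⟩
  · intro y hy
    have : y ∉ f.support := by rw [hf]; simpa using hy
    simpa using this
  · intro n
    exact Real.smoothTransition.contDiff.comp ((contDiff_const.mul hfs).sub contDiff_const)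
  · intro n y
    exact ⟨Real.smoothTransition.nonneg _, Real.smoothTransition.le_one _⟩
  · intro n y hy
    exact Real.smoothTransition.zero_of_nonpos (by linarith)
  · intro y hy
    have hpos : 0 < f y := by
      have : y ∈ f.support := by rw [hf]; exact hy
      exact lt_of_le_of_ne (hf0 y) (Ne.symm this)
    obtain ⟨N, hN⟩ := exists_nat_gt (2 / f y)
    refine tendsto_const_nhds.congr' ?_
    filter_upwards [eventually_ge_atTop N] with n hn
    have h1 : 2 < n * f y := by
      rw [div_lt_iff₀ hpos] at hN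
      have : (N : ℝ) ≤ n := by exact_mod_cast hn
      nlinarith
    exact (Real.smoothTransition.one_of_one_le (by linarith)).symm

end AcrossAux

open AcrossAux

/-- **Closed two-forms with integrable coefficients extend across closed sets with
`H^(d - 3) (S) = 0`** (a case of Federer's support theorem for flat chains).

Proof.  Fix the test function `φ`, `S₁ = S ∩ tsupport φ` (compact: `S ∩ U` is relatively closed in
`U`, here `S` is closed), and vectors `a, b, c`.
(1) If `a, b, c` are linearly dependent, the integrand vanishes identically (the expression is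
alternating trilinear in `(a, b, c)`; e.g. check the case `c = x a + y b` and permutations).
(2) Otherwise let `W` be the span of `a, b, c`, and `p : E d → Wᗮ` the orthogonal projection
(`W.orthogonalProjection`-API), `p a = p b = p c = 0`, `finrank Wᗮ = d - 3`.  The compact set
`Z = p '' S₁` satisfies `μH[d - 3] Z ≤ μH[d - 3] S₁ = 0` (`p` is 1-Lipschitz,
`LipschitzOnWith.hausdorffMeasure_image_le` or `hausdorffMeasure_...`), so it is Lebesgue-null in
`Wᗮ` (`μH[finrank]` is a Haar measure: `MeasureTheory.isAddHaarMeasure_hausdorffMeasure`, cf. the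
proof of `LG.vol_preimage_le` in `LG/Lip.lean`), and `p ⁻¹' Z` is null in `E d` (a surjective
linear map is quasi-measure-preserving: `LinearMap.quasiMeasurePreserving`).
(3) Choose smooth `g n : Wᗮ → [0, 1]` vanishing near `Z` with `g n y → 1` for each `y ∉ Z`
(cut-offs: `g n = 0` near `Z`, `g n = 1` outside `thickening (1 / n) Z`;
`exists_contMDiffMap_zero_one_nhds_of_isClosed`/`exists_smooth_zero_one_of_isClosed`).
`φ * (g n ∘ p)` is a test function with support in `U \ S`: its support is in `tsupport φ` and avoids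
a neighbourhood of `p ⁻¹' Z ⊇ S₁`.  Since `p a = 0`,
`fderiv (φ * (g n ∘ p)) z a = g n (p z) * fderiv φ z a`, similarly for `b`, `c`, so weak closedness
on `U \ S` gives `∫ g n (p z) * F z = 0` with
`F z = θ z ![b, c] * fderiv φ z a + θ z ![c, a] * fderiv φ z b + θ z ![a, b] * fderiv φ z c`,
which is integrable (`LN.int_term`).  Let `n → ∞` (dominated convergence, `g n ∘ p → 1` a.e.). -/
theorem weakClosed_across (hd : 3 ≤ d) {U S : Set (E d)} (hU : IsOpen U) (hS : IsClosed S)
    (hS0 : μH[((d - 3 : ℕ) : ℝ)] (S ∩ U) = 0) {θ : E d → (E d) [⋀^Fin 2]→L[ℝ] ℝ}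
    (hθ : LocallyIntegrableOn θ U) (hcl : WeakClosed (U \ S) θ) : WeakClosed U θ := by
  intro φ hφ hφc hφU a b c
  obtain ⟨p, hp, pa, pb, pc⟩ := exists_proj hd a b c
  set S₁ : Set (E d) := S ∩ tsupport φ with hS₁
  have hS₁c : IsCompact S₁ := hφc.isCompact.inter_left hS
  have hsub : S₁ ⊆ S ∩ U := fun z hz => ⟨hz.1, hφU hz.2⟩
  have hS₁0 : μH[((d - 3 : ℕ) : ℝ)] S₁ = 0 := measure_mono_null hsub hS0
  have hae := null_preimage p hp hS₁c hS₁0
  have hZ : IsClosed (p '' S₁) := (hS₁c.image p.continuous).isClosed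
  obtain ⟨f, g, hf, hfZ, hg, hg01, hg0, hg1⟩ := exists_cutoff hZ
  have hφd : ∀ v, Continuous fun z => fderiv ℝ φ z v := fun v =>
    (hφ.continuous_fderiv (by simp)).clm_apply continuous_const
  have hφ0 : ∀ v z, z ∉ tsupport φ → fderiv ℝ φ z v = 0 := by
    intro v z hz
    rw [fderiv_of_notMem_tsupport (𝕜 := ℝ) hz]
    rfl
  set F : E d → ℝ := fun z => θ z ![b, c] * fderiv ℝ φ z a + θ z ![c, a] * fderiv ℝ φ z b +
      θ z ![a, b] * fderiv ℝ φ z c with hF
  have hFi : Integrable F :=
    ((int_term hφc.isCompact hφU hθ (hφd a) (hφ0 a) _).add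
      (int_term hφc.isCompact hφU hθ (hφd b) (hφ0 b) _)).add
      (int_term hφc.isCompact hφU hθ (hφd c) (hφ0 c) _)
  have hgc : ∀ n, Continuous fun z => g n (p z) := fun n => (hg n).continuous.comp p.continuous
  -- the cut-off test functions
  have hn : ∀ n : ℕ, ∫ z, g n (p z) * F z = 0 := by
    intro n
    set ψ : E d → ℝ := fun z => φ z * g n (p z) with hψ
    have hgp : ContDiff ℝ ∞ (fun z => g n (p z)) := (hg n).comp p.contDiff
    have hψs : ContDiff ℝ ∞ ψ := hφ.mul hgp
    have hψc : HasCompactSupport ψ := hφc.mul_right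
    have hψt : tsupport ψ ⊆ U \ S := by
      intro z hz
      have hz1 : z ∈ tsupport φ := tsupport_mul_subset_left hz
      refine ⟨hφU hz1, fun hzS => ?_⟩
      have hcl2 : tsupport ψ ⊆ {z | 1 ≤ (n : ℝ) * f (p z)} := by
        refine closure_minimal (fun w hw => ?_)
          (isClosed_le continuous_const (continuous_const.mul (hf.comp p.continuous)))
        by_contra h1
        refine hw ?_
        show φ w * g n (p w) = 0
        rw [hg0 n (p w) (not_le.1 h1), mul_zero]
      have h2 := hcl2 hz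
      have h3 : f (p z) = 0 := hfZ _ ⟨z, ⟨hzS, hz1⟩, rfl⟩
      simp only [mem_ofPred_eq, h3, mul_zero] at h2
      linarith
    have hψd : ∀ z v, p v = 0 → fderiv ℝ ψ z v = g n (p z) * fderiv ℝ φ z v := by
      intro z v hv
      have h1 : HasFDerivAt φ (fderiv ℝ φ z) z :=
        ((hφ.differentiable (by simp)) z).hasFDerivAt
      have h2 : HasFDerivAt (g n) (fderiv ℝ (g n) (p z)) (p z) :=
        (((hg n).differentiable (by simp)) (p z)).hasFDerivAt
      have h3 : HasFDerivAt (fun z => g n (p z)) ((fderiv ℝ (g n) (p z)).comp p) z :=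
        h2.comp z p.hasFDerivAt
      have h4 : HasFDerivAt ψ _ z := h1.mul h3
      rw [h4.fderiv]
      simp [hv]
    have h1 := hcl ψ hψs hψc hψt a b c
    rw [← h1]
    refine integral_congr_ae (Eventually.of_forall fun z => ?_)
    simp only [hF, hψd z a pa, hψd z b pb, hψd z c pc]
    ring
  have hlim : Tendsto (fun n : ℕ => ∫ z, g n (p z) * F z) atTop (𝓝 (∫ z, F z)) := by
    refine tendsto_integral_of_dominated_convergence (fun z => ‖F z‖) ?_ hFi.norm ?_ ?_
    · intro n
      exact (hgc n).aestronglyMeasurable.mul hFi.aestronglyMeasurable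
    · intro n
      refine Eventually.of_forall fun z => ?_
      rw [norm_mul, Real.norm_of_nonneg (hg01 n (p z)).1]
      exact mul_le_of_le_one_left (norm_nonneg _) (hg01 n (p z)).2
    · filter_upwards [hae] with z hz
      have := (hg1 (p z) hz).mul_const (F z)
      rwa [one_mul] at this
  simp only [hn] at hlim
  exact tendsto_nhds_unique hlim tendsto_const_nhds

end Pool.Agent.H819.DR
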