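import Mathlib
import Pool.Agent.H819.LG.Approx
import Pool.Agent.H819.LG.Conv

/-!
# Extension by zero of compactly supported weak primitives
-/

set_option autoImplicit false

open Set Filter Topology MeasureTheory Metric
open scoped Manifold ContDiff ENNReal NNReal Convolution

noncomputable section

namespace Pool.Agent.H819.DR

open Pool.Agent.Y501.SY
open Pool.Agent.H819.LG
open Pool.Agent.Y431.SY (ev ev_apply)

variable {d : ℕ} {X : Type} [TopologicalSpace X] [ChartedSpace (E d) X] [IsManifold (𝓡 d) ∞ X]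

namespace H962

theorem norm_compK {k : ℕ} (f : (E d) [⋀^Fin k]→L[ℝ] ℝ) (g : E d →L[ℝ] E d) :
    ‖f.compContinuousLinearMap g‖ ≤ ‖f‖ * ‖g‖ ^ k := by
  refine ContinuousAlternatingMap.opNorm_le_bound _ (by positivity) fun v => ?_
  rw [ContinuousAlternatingMap.compContinuousLinearMap_apply]
  refine (f.le_opNorm _).trans ?_
  have h1 : ∏ i, ‖(g ∘ v) i‖ ≤ ∏ i : Fin k, ‖g‖ * ‖v i‖ :=
    Finset.prod_le_prod (fun i _ => norm_nonneg _) fun i _ => g.le_opNorm (v i)
  rw [Finset.prod_mul_distrib, Finset.prod_const, Finset.card_univ, Fintype.card_fin] at h1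
  calc ‖f‖ * ∏ i, ‖(g ∘ v) i‖ ≤ ‖f‖ * (‖g‖ ^ k * ∏ i, ‖v i‖) := by gcongr
    _ = ‖f‖ * ‖g‖ ^ k * ∏ i, ‖v i‖ := by ring

/-- the compact set where a form supported in the first chart lives in the second chart, with
bounds of the derivative and of the Jacobian -/
theorem dom_bounds [T2Space X] (x₀ x₁ : X) {N Q : Set (E d)} (hN : IsCompact N)
    (hNt : N ⊆ (chartAt (E d) x₀).target) (hQ : IsCompact Q)
    (hQt : Q ⊆ (chartAt (E d) x₁).target) :
    ∃ (D : Set (E d)) (M m : ℝ), IsCompact D ∧ D ⊆ N ∧ D ⊆ trD x₀ x₁ ∧ 0 < m ∧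
      (∀ z ∈ D, ‖fderiv ℝ (tr (d := d) x₀ x₁) z‖ ≤ M) ∧
      (∀ z ∈ D, m ≤ |(fderiv ℝ (tr (d := d) x₀ x₁) z).det|) ∧
      (∀ z ∈ D, tr x₀ x₁ z ∈ Q) ∧
      ∀ z ∈ N, z ∉ D → (chartAt (E d) x₀).symm z ∉ (chartAt (E d) x₁).symm '' Q := by
  set P : Set X := (chartAt (E d) x₁).symm '' Q with hP
  have hPc : IsClosed P :=
    (hQ.image_of_continuousOn ((chartAt (E d) x₁).continuousOn_symm.mono hQt)).isClosed
  have hPs : P ⊆ (chartAt (E d) x₁).source := by
    rintro _ ⟨z, hz, rfl⟩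
    exact (chartAt (E d) x₁).map_target (hQt hz)
  set D : Set (E d) := N ∩ (chartAt (E d) x₀).symm ⁻¹' P with hD
  have hDc : IsCompact D := by
    have h1 : IsClosed D := ((chartAt (E d) x₀).continuousOn_symm.mono hNt).preimage_isClosed_of_isClosed
      hN.isClosed hPc
    exact hN.of_isClosed_subset h1 inter_subset_left
  have hDO : D ⊆ trD x₀ x₁ := fun z hz => ⟨hNt hz.1, hPs hz.2⟩
  have hfc : ContinuousOn (fun z => fderiv ℝ (tr (d := d) x₀ x₁) z) D :=
    ((tr_smooth x₀ x₁).continuousOn_fderiv_of_isOpen (isOpen_trD x₀ x₁) (by simp)).mono hDO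
  obtain ⟨M, hM⟩ := hDc.exists_bound_of_continuousOn hfc
  obtain ⟨m, hm, hm'⟩ : ∃ m : ℝ, 0 < m ∧ ∀ z ∈ D, m ≤ |(fderiv ℝ (tr (d := d) x₀ x₁) z).det| := by
    rcases D.eq_empty_or_nonempty with h0 | h0
    · exact ⟨1, one_pos, fun z hz => by rw [h0] at hz; exact hz.elim⟩
    · have hc : ContinuousOn (fun z => |(fderiv ℝ (tr (d := d) x₀ x₁) z).det|) D :=
        (ContinuousLinearMap.continuous_det.comp_continuousOn hfc).abs
      obtain ⟨z, hz, hmin⟩ := hDc.exists_isMinOn h0 hc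
      exact ⟨_, abs_pos.2 (tr_det (hDO hz)), fun y hy => hmin hy⟩
  refine ⟨D, M, m, hDc, inter_subset_left, hDO, hm, hM, hm', ?_, ?_⟩
  · intro z hz
    obtain ⟨q, hq, hqz⟩ := hz.2
    show chartAt (E d) x₁ ((chartAt (E d) x₀).symm z) ∈ Q
    rw [← hqz, (chartAt (E d) x₁).right_inv (hQt hq)]
    exact hq
  · intro z hz hz' h
    exact hz' ⟨hz, h⟩

omit [IsManifold (𝓡 d) ∞ X] in
theorem pb_zero_of {k : ℕ} (x₀ : X) (ξ : Form d X k) {z : E d}
    (h : ξ ((chartAt (E d) x₀).symm z) = 0) : pb (chartAt (E d) x₀).symm ξ z = 0 := by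
  have h3 : ξ ((chartAt (E d) x₀).symm z) = (0 : Form d X k) ((chartAt (E d) x₀).symm z) := h
  rw [pb_congr_form (τ := 0) _ h3]
  rfl

/-- comparison of the `L¹` norms in two charts, for forms of all degrees -/
theorem chart_compareK [T2Space X] {k : ℕ} (x₀ x₁ : X) {N Q : Set (E d)} (hN : IsCompact N)
    (hNt : N ⊆ (chartAt (E d) x₀).target) (hQ : IsCompact Q)
    (hQt : Q ⊆ (chartAt (E d) x₁).target) :
    ∃ C : ℝ, 0 ≤ C ∧ ∀ ξ : Form d X k, (∀ x, x ∉ (chartAt (E d) x₁).symm '' Q → ξ x = 0) →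
      ∫⁻ z in N, ‖pb (chartAt (E d) x₀).symm ξ z‖ₑ ≤
        ENNReal.ofReal C * ∫⁻ z in Q, ‖pb (chartAt (E d) x₁).symm ξ z‖ₑ := by
  obtain ⟨D, M, m, hDc, hDN, hDO, hm, hM, hm', hDQ, hND⟩ := dom_bounds x₀ x₁ hN hNt hQ hQt
  refine ⟨|M| ^ k / m, by positivity, fun ξ hξ => ?_⟩
  have hDm : MeasurableSet D := hDc.measurableSet
  have h1 : ∫⁻ z in N, ‖pb (chartAt (E d) x₀).symm ξ z‖ₑ ≤
      ∫⁻ z in D, ‖pb (chartAt (E d) x₀).symm ξ z‖ₑ := by
    rw [← lintegral_indicator hN.measurableSet, ← lintegral_indicator hDm]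
    refine lintegral_mono fun z => ?_
    by_cases hz : z ∈ N
    · rw [indicator_of_mem hz]
      by_cases hz' : z ∈ D
      · rw [indicator_of_mem hz']
      · rw [pb_zero_of x₀ ξ (hξ _ (hND z hz hz'))]
        refine le_trans (le_of_eq ?_) zero_le
        rw [← ofReal_norm]
        have : ‖(0 : (E d) [⋀^Fin k]→L[ℝ] ℝ)‖ = 0 := norm_zero
        exact (congrArg ENNReal.ofReal this).trans ENNReal.ofReal_zero
    · rw [indicator_of_notMem hz]
      exact zero_le
  refine h1.trans ?_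
  have h4 : ∀ z ∈ D, ‖pb (chartAt (E d) x₀).symm ξ z‖ₑ ≤ ENNReal.ofReal (|M| ^ k / m) *
      (ENNReal.ofReal |(fderiv ℝ (tr (d := d) x₀ x₁) z).det| *
        ‖pb (chartAt (E d) x₁).symm ξ (tr x₀ x₁ z)‖ₑ) := by
    intro z hz
    rw [pb_tr ξ (hDO hz)]
    set f := pb (chartAt (E d) x₁).symm ξ (tr x₀ x₁ z) with hf
    have h5 := norm_compK f (fderiv ℝ (tr x₀ x₁) z)
    have hm'' := hm' z hz
    have hM'' : ‖fderiv ℝ (tr (d := d) x₀ x₁) z‖ ≤ |M| := (hM z hz).trans (le_abs_self M)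
    have h6 : ‖f.compContinuousLinearMap (fderiv ℝ (tr x₀ x₁) z)‖ ≤
        |M| ^ k / m * (|(fderiv ℝ (tr (d := d) x₀ x₁) z).det| * ‖f‖) := by
      calc ‖f.compContinuousLinearMap (fderiv ℝ (tr x₀ x₁) z)‖
          ≤ ‖f‖ * ‖fderiv ℝ (tr x₀ x₁) z‖ ^ k := h5
        _ ≤ ‖f‖ * |M| ^ k := by gcongr
        _ = |M| ^ k / m * (m * ‖f‖) := by field_simp
        _ ≤ _ := by gcongr
    rw [← ofReal_norm, ← ofReal_norm, ← ENNReal.ofReal_mul (abs_nonneg _),
      ← ENNReal.ofReal_mul (by positivity)]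
    exact ENNReal.ofReal_le_ofReal h6
  calc ∫⁻ z in D, ‖pb (chartAt (E d) x₀).symm ξ z‖ₑ
      ≤ ∫⁻ z in D, ENNReal.ofReal (|M| ^ k / m) *
        (ENNReal.ofReal |(fderiv ℝ (tr (d := d) x₀ x₁) z).det| *
        ‖pb (chartAt (E d) x₁).symm ξ (tr x₀ x₁ z)‖ₑ) := setLIntegral_mono' hDm h4
    _ = ENNReal.ofReal (|M| ^ k / m) * ∫⁻ z in D,
        (ENNReal.ofReal |(fderiv ℝ (tr (d := d) x₀ x₁) z).det| *
        ‖pb (chartAt (E d) x₁).symm ξ (tr x₀ x₁ z)‖ₑ) :=
        lintegral_const_mul' _ _ ENNReal.ofReal_ne_top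
    _ = ENNReal.ofReal (|M| ^ k / m) * ∫⁻ z in tr x₀ x₁ '' D,
        ‖pb (chartAt (E d) x₁).symm ξ z‖ₑ := by
        rw [lintegral_image_eq_lintegral_abs_det_fderiv_mul volume hDm
          (fun z hz => (tr_diff (hDO hz)).hasFDerivAt.hasFDerivWithinAt)
          ((tr_injOn x₀ x₁).mono hDO)]
    _ ≤ _ := by
        gcongr
        rintro _ ⟨z, hz, rfl⟩
        exact hDQ z hz

/-- local integrability of the extension -/
theorem locInt_extF [T2Space X] {k : ℕ} {x₀ : X} {b : E d → (E d) [⋀^Fin k]→L[ℝ] ℝ}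
    (ib : Integrable b) {Q : Set (E d)} (hQ : IsCompact Q)
    (hQt : Q ⊆ (chartAt (E d) x₀).target) (hb0 : ∀ z, z ∉ Q → b z = 0) (x₁ : X) :
    LocallyIntegrableOn (pb (chartAt (E d) x₁).symm (extF x₀ b)) (chartAt (E d) x₁).target := by
  rw [locallyIntegrableOn_iff (chartAt (E d) x₁).open_target.isLocallyClosed]
  intro N hNt hN
  obtain ⟨D, M, m, hDc, hDN, hDO, hm, hM, hm', hDQ, hND⟩ := dom_bounds x₁ x₀ hN hNt hQ hQt
  have hDm : MeasurableSet D := hDc.measurableSet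
  have hfc : ContinuousOn (fun z => fderiv ℝ (tr (d := d) x₁ x₀) z) D :=
    ((tr_smooth x₁ x₀).continuousOn_fderiv_of_isOpen (isOpen_trD x₁ x₀) (by simp)).mono hDO
  have h1 : IntegrableOn (fun z => |(fderiv ℝ (tr (d := d) x₁ x₀) z).det| • b (tr x₁ x₀ z)) D :=
    (integrableOn_image_iff_integrableOn_abs_det_fderiv_smul volume hDm
      (fun z hz => (tr_diff (hDO hz)).hasFDerivAt.hasFDerivWithinAt)
      ((tr_injOn x₁ x₀).mono hDO) b).1 ib.integrableOn
  have hdetc : ContinuousOn (fun z => |(fderiv ℝ (tr (d := d) x₁ x₀) z).det|⁻¹) D := by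
    refine ContinuousOn.inv₀ (ContinuousLinearMap.continuous_det.comp_continuousOn hfc).abs
      fun z hz => ?_
    exact abs_ne_zero.2 (tr_det (hDO hz))
  have h2 : AEStronglyMeasurable (fun z => b (tr x₁ x₀ z)) (volume.restrict D) := by
    have h3 : AEStronglyMeasurable (fun z => |(fderiv ℝ (tr (d := d) x₁ x₀) z).det|⁻¹ •
        (|(fderiv ℝ (tr (d := d) x₁ x₀) z).det| • b (tr x₁ x₀ z))) (volume.restrict D) :=
      (hdetc.aestronglyMeasurable hDm).smul h1.aestronglyMeasurable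
    refine h3.congr ?_
    refine (ae_restrict_iff' hDm).2 (Eventually.of_forall fun z hz => ?_)
    show |(fderiv ℝ (tr (d := d) x₁ x₀) z).det|⁻¹ •
        (|(fderiv ℝ (tr (d := d) x₁ x₀) z).det| • b (tr x₁ x₀ z)) = b (tr x₁ x₀ z)
    rw [smul_smul, inv_mul_cancel₀ (abs_ne_zero.2 (tr_det (hDO hz))), one_smul]
  have h3 : AEStronglyMeasurable (fun z => (b (tr x₁ x₀ z)).compContinuousLinearMap
      (fderiv ℝ (tr (d := d) x₁ x₀) z)) (volume.restrict D) :=
    (Pool.Agent.Y604.SY.contDiff_pull (ι := Fin k) (V := E d) (V' := E d)).continuous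
      |>.comp_aestronglyMeasurable (h2.prodMk (hfc.aestronglyMeasurable hDm))
  have h4 : IntegrableOn (fun z => (b (tr x₁ x₀ z)).compContinuousLinearMap
      (fderiv ℝ (tr (d := d) x₁ x₀) z)) D := by
    refine Integrable.mono' (h1.norm.const_mul (|M| ^ k / m)) h3 ?_
    refine (ae_restrict_iff' hDm).2 (Eventually.of_forall fun z hz => ?_)
    have h5 := norm_compK (b (tr x₁ x₀ z)) (fderiv ℝ (tr x₁ x₀) z)
    have hm'' := hm' z hz
    have hM'' : ‖fderiv ℝ (tr (d := d) x₁ x₀) z‖ ≤ |M| := (hM z hz).trans (le_abs_self M)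
    show ‖(b (tr x₁ x₀ z)).compContinuousLinearMap (fderiv ℝ (tr (d := d) x₁ x₀) z)‖ ≤
      |M| ^ k / m * ‖|(fderiv ℝ (tr (d := d) x₁ x₀) z).det| • b (tr x₁ x₀ z)‖
    rw [norm_smul, Real.norm_eq_abs, abs_abs]
    calc ‖(b (tr x₁ x₀ z)).compContinuousLinearMap (fderiv ℝ (tr x₁ x₀) z)‖
          ≤ ‖b (tr x₁ x₀ z)‖ * ‖fderiv ℝ (tr x₁ x₀) z‖ ^ k := h5
        _ ≤ ‖b (tr x₁ x₀ z)‖ * |M| ^ k := by gcongr
        _ = |M| ^ k / m * (m * ‖b (tr x₁ x₀ z)‖) := by field_simp
        _ ≤ _ := by gcongr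
  have h5 : IntegrableOn (pb (chartAt (E d) x₁).symm (extF x₀ b)) D := by
    refine h4.congr_fun (fun z hz => ?_) hDm
    have h6 := pb_tr (extF x₀ b) (hDO hz)
    have h7 : tr x₁ x₀ z ∈ (chartAt (E d) x₀).target := hQt (hDQ z hz)
    rw [extF_symm x₀ b h7] at h6
    exact h6.symm
  have h6 : IntegrableOn (pb (chartAt (E d) x₁).symm (extF x₀ b)) (N \ D) := by
    have hm7 : MeasurableSet (N \ D) := hN.measurableSet.diff hDm
    have h7 : ∀ z ∈ N \ D, pb (chartAt (E d) x₁).symm (extF x₀ b) z = 0 := fun z hz =>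
      pb_zero_of x₁ _ (extF_zero x₀ b hb0 (hND z hz.1 hz.2))
    have h8 : AEStronglyMeasurable (pb (chartAt (E d) x₁).symm (extF x₀ b))
        (volume.restrict (N \ D)) := by
      refine (aestronglyMeasurable_const (b := (0 : (E d) [⋀^Fin k]→L[ℝ] ℝ))).congr ?_
      exact (ae_restrict_iff' hm7).2 (Eventually.of_forall fun z hz => (h7 z hz).symm)
    refine Integrable.mono' (g := fun _ => (0 : ℝ)) (integrable_zero _ _ _) h8 ?_
    refine (ae_restrict_iff' hm7).2 (Eventually.of_forall fun z hz => ?_)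
    rw [h7 z hz]
    exact norm_zero.le
  refine (h5.union h6).mono_set fun z hz => ?_
  by_cases hzD : z ∈ D
  · exact Or.inl hzD
  · exact Or.inr ⟨hz, hzD⟩

omit [IsManifold (𝓡 d) ∞ X] in
theorem extF_sub {k : ℕ} (x₀ : X) (b b' : E d → (E d) [⋀^Fin k]→L[ℝ] ℝ) :
    extF x₀ b - extF x₀ b' = extF x₀ (fun z => b z - b' z) := by
  funext x
  by_cases hx : x ∈ (chartAt (E d) x₀).source
  · show extF x₀ b x - extF x₀ b' x = _
    rw [extF_of_mem x₀ b hx, extF_of_mem x₀ b' hx, extF_of_mem x₀ _ hx]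
    rfl
  · show extF x₀ b x - extF x₀ b' x = _
    rw [extF_of_notMem x₀ b hx, extF_of_notMem x₀ b' hx, extF_of_notMem x₀ _ hx, sub_zero]

/-- closeness of linear expressions in a compactly supported weight -/
theorem func_close {F : Type} [NormedAddCommGroup F] [NormedSpace ℝ F] {S : Set (E d)}
    (hS : IsCompact S) {g : E d → ℝ} (hg : Continuous g) (hg0 : ∀ z, z ∉ S → g z = 0)
    {M : ℝ} (hM : ∀ z ∈ S, |g z| ≤ M) (L : F →L[ℝ] ℝ) {a₁ a₂ : E d → F}
    (h₁ : IntegrableOn a₁ S) (h₂ : IntegrableOn a₂ S) {δ : ℝ} (hδ : 0 ≤ δ)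
    (h : ∫⁻ z in S, ‖a₁ z - a₂ z‖ₑ ≤ ENNReal.ofReal δ) :
    Integrable (fun z => L (a₁ z) * g z) ∧ Integrable (fun z => L (a₂ z) * g z) ∧
      |(∫ z, L (a₁ z) * g z) - ∫ z, L (a₂ z) * g z| ≤ ‖L‖ * |M| * δ := by
  have key : ∀ {a : E d → F}, IntegrableOn a S → IntegrableOn (fun z => L (a z) * g z) S ∧
      Integrable (fun z => L (a z) * g z) := by
    intro a ha
    have h3 : IntegrableOn (fun z => L (a z) * g z) S := by
      refine Integrable.mono' (ha.norm.const_mul (‖L‖ * |M|))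
        ((L.continuous.comp_aestronglyMeasurable ha.aestronglyMeasurable).mul
          hg.aestronglyMeasurable) ?_
      refine (ae_restrict_iff' hS.measurableSet).2 (Eventually.of_forall fun z hz => ?_)
      rw [norm_mul]
      have h4 : ‖g z‖ ≤ |M| := (hM z hz).trans (le_abs_self M)
      calc ‖L (a z)‖ * ‖g z‖ ≤ (‖L‖ * ‖a z‖) * |M| := by
            gcongr
            exact L.le_opNorm _
        _ = ‖L‖ * |M| * ‖a z‖ := by ring
    refine ⟨h3, (integrableOn_iff_integrable_of_support_subset ?_).1 h3⟩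
    intro z hz
    by_contra hzS
    apply hz
    show L (a z) * g z = 0
    rw [hg0 z hzS, mul_zero]
  obtain ⟨k1, k1'⟩ := key h₁
  obtain ⟨k2, k2'⟩ := key h₂
  refine ⟨k1', k2', ?_⟩
  have h12 : IntegrableOn (fun z => a₁ z - a₂ z) S := h₁.sub h₂
  obtain ⟨k3, k3'⟩ := key h12
  have e1 : (∫ z, L (a₁ z) * g z) - ∫ z, L (a₂ z) * g z = ∫ z in S, L (a₁ z - a₂ z) * g z := by
    rw [← integral_sub k1' k2', setIntegral_eq_integral_of_forall_compl_eq_zero]
    · refine integral_congr_ae (Eventually.of_forall fun z => ?_)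
      show L (a₁ z) * g z - L (a₂ z) * g z = L (a₁ z - a₂ z) * g z
      rw [map_sub]
      ring
    · intro z hz
      rw [hg0 z hz, mul_zero]
  rw [e1, ← Real.norm_eq_abs]
  have e2 : ‖∫ z in S, L (a₁ z - a₂ z) * g z‖ ≤ ∫ z in S, (‖L‖ * |M|) * ‖a₁ z - a₂ z‖ := by
    refine norm_integral_le_of_norm_le (h12.norm.const_mul _) ?_
    refine (ae_restrict_iff' hS.measurableSet).2 (Eventually.of_forall fun z hz => ?_)
    rw [norm_mul]
    have h4 : ‖g z‖ ≤ |M| := (hM z hz).trans (le_abs_self M)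
    calc ‖L (a₁ z - a₂ z)‖ * ‖g z‖ ≤ (‖L‖ * ‖a₁ z - a₂ z‖) * |M| := by
          gcongr
          exact L.le_opNorm _
      _ = ‖L‖ * |M| * ‖a₁ z - a₂ z‖ := by ring
  refine e2.trans ?_
  rw [integral_const_mul]
  refine mul_le_mul_of_nonneg_left ?_ (by positivity)
  rw [integral_norm_eq_lintegral_enorm h12.aestronglyMeasurable]
  exact ENNReal.toReal_le_of_le_ofReal hδ h

end H962

/-- **Weak primitives with compact support in a chart define weak primitives on the manifold**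
(invariance of the weak exterior derivative under coordinate changes).

Proof.  Mollify: for bumps `ρ` with `rOut` small, `B = ρ * b` is smooth, `extDeriv B = ρ * c`
(`moll_extDeriv`), both are supported in a compact neighbourhood `Q'` of `Q` in the target of the
chart (see `approx_piece` in `LG/Approx.lean`, where all of this is done), and `ρ * b → b`,
`ρ * c → c` in `L¹` (`moll_tendsto`).  `extF x₀ B` and `extF x₀ (extDeriv B)` are smooth
(`smooth_extF`) and `IsD` (`isD_extF`), so `WeakPrim` (`weakPrim_of_smooth` in `LG/Conv.lean`).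
In each chart at `x₁` and on each compact `N`, the coefficients of `extF x₀ (ρ * b)` and
`extF x₀ (ρ * c)` converge in `L¹(N)` to those of `extF x₀ b` and `extF x₀ c`
(`chart_compare` in `LG/CV.lean` for two-forms; the same proof, with `‖fderiv‖` in place of
`‖fderiv‖ ^ 2`, for one-forms).  Hence measurability/local integrability of the limits and the weak
formula for a fixed test function `φ` (both sides are continuous in `L¹(tsupport φ)`). -/
theorem weakPrim_extF [T2Space X] {x₀ : X} {b : E d → (E d) [⋀^Fin 1]→L[ℝ] ℝ}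
    {c : E d → (E d) [⋀^Fin 2]→L[ℝ] ℝ} (ib : Integrable b) (ic : Integrable c)
    (h : WeakExt b c) {Q : Set (E d)} (hQ : IsCompact Q)
    (hQt : Q ⊆ (chartAt (E d) x₀).target) (hb0 : ∀ z, z ∉ Q → b z = 0)
    (hc0 : ∀ z, z ∉ Q → c z = 0) : WeakPrim (extF x₀ b) (extF x₀ c) := by
  refine ⟨H962.locInt_extF ib hQ hQt hb0, H962.locInt_extF ic hQ hQt hc0, ?_⟩
  intro x₁ φ hφ hφc hφt u v
  set S := tsupport φ with hSdef
  have hS : IsCompact S := hφc
  have hφ0 : ∀ z, z ∉ S → φ z = 0 := fun z hz => image_eq_zero_of_notMem_tsupport hz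
  have hdφ : ∀ w, Continuous (fun z => fderiv ℝ φ z w) := fun w =>
    (hφ.continuous_fderiv (by simp)).clm_apply continuous_const
  have hdφ0 : ∀ w z, z ∉ S → fderiv ℝ φ z w = 0 := by
    intro w z hz
    have h1 : φ =ᶠ[𝓝 z] fun _ => 0 := by
      filter_upwards [(isClosed_tsupport φ).isOpen_compl.mem_nhds hz] with x hx
      exact hφ0 x hx
    rw [h1.fderiv_eq]
    simp
  obtain ⟨Mu, hMu⟩ := hS.exists_bound_of_continuousOn (hdφ u).continuousOn
  obtain ⟨Mv, hMv⟩ := hS.exists_bound_of_continuousOn (hdφ v).continuousOn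
  obtain ⟨M0, hM0⟩ := hS.exists_bound_of_continuousOn hφ.continuous.continuousOn
  obtain ⟨r₀, hr₀, hthick⟩ := hQ.exists_cthickening_subset_open
    (chartAt (E d) x₀).open_target hQt
  set Q' : Set (E d) := cthickening r₀ Q with hQ'
  have hQc : IsCompact Q' := hQ.cthickening
  have hSQ : Q ⊆ Q' := self_subset_cthickening _
  obtain ⟨C1, hC10, hC1⟩ := H962.chart_compareK (k := 1) x₁ x₀ hS hφt hQc hthick
  obtain ⟨C2, hC20, hC2⟩ := H962.chart_compareK (k := 2) x₁ x₀ hS hφt hQc hthick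
  set β := pb (chartAt (E d) x₁).symm (extF x₀ b) with hβ
  set γ := pb (chartAt (E d) x₁).symm (extF x₀ c) with hγ
  have hβi : IntegrableOn β S :=
    (H962.locInt_extF ib hQ hQt hb0 x₁).integrableOn_compact_subset hφt hS
  have hγi : IntegrableOn γ S :=
    (H962.locInt_extF ic hQ hQt hc0 x₁).integrableOn_compact_subset hφt hS
  set Lu := ev (![u] : Fin 1 → E d) with hLu
  set Lv := ev (![v] : Fin 1 → E d) with hLv
  set Luv := ev (![u, v] : Fin 2 → E d) with hLuv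
  set K : ℝ := ‖Lv‖ * |Mu| * C1 + ‖Lu‖ * |Mv| * C1 + ‖Luv‖ * |M0| * C2 with hK
  have hK0 : 0 ≤ K := by positivity
  -- the estimate for each `δ`
  have hest : ∀ δ : ℝ, 0 < δ →
      |(∫ z, (β z ![v] * fderiv ℝ φ z u - β z ![u] * fderiv ℝ φ z v)) +
        ∫ z, γ z ![u, v] * φ z| ≤ K * δ := by
    intro δ hδ
    obtain ⟨r, hr, hmoll⟩ := moll_tendsto ib hδ
    obtain ⟨r', hr', hmoll'⟩ := moll_tendsto ic hδ
    obtain ⟨ρ, hρ1, hρ2, hρ3⟩ : ∃ ρ : ContDiffBump (0 : E d), ρ.rOut < r ∧ ρ.rOut < r' ∧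
        ρ.rOut < r₀ := by
      set s : ℝ := min (min r r') r₀ / 2 with hs'
      have hs0 : 0 < s := by positivity
      have h0 : 0 < min (min r r') r₀ := by positivity
      have e1 := min_le_left (min r r') r₀
      have e2 := min_le_right (min r r') r₀
      have e3 := min_le_left r r'
      have e4 := min_le_right r r'
      refine ⟨⟨s / 2, s, by positivity, by linarith⟩, ?_, ?_, ?_⟩
      · show s < r
        linarith
      · show s < r'
        linarith
      · show s < r₀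
        linarith
    obtain ⟨hBs, hBd⟩ := moll_extDeriv ib.locallyIntegrable ic.locallyIntegrable h ρ
    set B : E d → (E d) [⋀^Fin 1]→L[ℝ] ℝ :=
      (ρ.normed volume ⋆[ContinuousLinearMap.lsmul ℝ ℝ, volume] b) with hB
    have hB0 : ∀ z, z ∉ Q' → B z = 0 := by
      intro z hz
      have h1 : ∀ y ∈ ball z ρ.rOut, b y = b z := by
        have h2 : ∀ y ∈ ball z r₀, b y = 0 := by
          intro y hy
          refine hb0 y fun h3 => hz ?_
          refine mem_cthickening_of_dist_le z y r₀ _ h3 ?_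
          rw [dist_comm]
          exact (mem_ball.1 hy).le
        intro y hy
        rw [h2 y (ball_subset_ball hρ3.le hy), h2 z (mem_ball_self hr₀)]
      have h3 : b z = 0 := hb0 z fun h4 => hz (hSQ h4)
      rw [hB, ρ.normed_convolution_eq_right h1, h3]
    obtain ⟨hd1, hd0⟩ := isD_extF (x₀ := x₀) hBs hQc hthick hB0
    have hsm2 : ContDiff ℝ ∞ (extDeriv B) := by
      rw [contDiff_iff_contDiffAt]
      intro z
      exact Pool.Agent.Y891.SY.contDiffAt_extDeriv hBs.contDiffAt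
    have hsB := smooth_extF hBs hQc hthick hB0
    have hsC := smooth_extF hsm2 hQc hthick hd0
    have hwk := weakPrim_of_smooth hsB hsC hd1
    have hform := hwk.weak x₁ φ hφ hφc hφt u v
    set β' := pb (chartAt (E d) x₁).symm (extF x₀ B) with hβ'
    set γ' := pb (chartAt (E d) x₁).symm (extF x₀ (extDeriv B)) with hγ'
    have hβ'i : IntegrableOn β' S := (hwk.int1 x₁).integrableOn_compact_subset hφt hS
    have hγ'i : IntegrableOn γ' S := (hwk.int2 x₁).integrableOn_compact_subset hφt hS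
    have c1 : ∫⁻ z in S, ‖β' z - β z‖ₑ ≤ ENNReal.ofReal (C1 * δ) := by
      have h1 := hC1 (extF x₀ B - extF x₀ b) (by
        rw [H962.extF_sub]
        intro x hx
        refine extF_zero x₀ _ (Q := Q') (fun z hz => ?_) hx
        rw [hB0 z hz, hb0 z fun h4 => hz (hSQ h4), sub_zero])
      have h2 : ∀ z, pb (chartAt (E d) x₁).symm (extF x₀ B - extF x₀ b) z = β' z - β z :=
        fun z => Pool.Agent.Y891.SY.pb_sub _ _ _ z
      simp only [h2] at h1
      refine h1.trans ?_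
      rw [ENNReal.ofReal_mul hC10]
      refine mul_le_mul_right (le_trans ?_ (hmoll ρ hρ1)) _
      refine le_trans (le_of_eq ?_) (setLIntegral_le_lintegral Q' _)
      refine setLIntegral_congr_fun hQc.measurableSet fun z hz => ?_
      have h3 : pb (chartAt (E d) x₀).symm (extF x₀ B - extF x₀ b) z = B z - b z := by
        rw [H962.extF_sub]
        exact extF_symm x₀ _ (hthick hz)
      exact congrArg (fun t => ‖t‖ₑ) h3
    have c2 : ∫⁻ z in S, ‖γ' z - γ z‖ₑ ≤ ENNReal.ofReal (C2 * δ) := by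
      have h1 := hC2 (extF x₀ (extDeriv B) - extF x₀ c) (by
        rw [H962.extF_sub]
        intro x hx
        refine extF_zero x₀ _ (Q := Q') (fun z hz => ?_) hx
        rw [hd0 z hz, hc0 z fun h4 => hz (hSQ h4), sub_zero])
      have h2 : ∀ z, pb (chartAt (E d) x₁).symm (extF x₀ (extDeriv B) - extF x₀ c) z =
          γ' z - γ z := fun z => Pool.Agent.Y891.SY.pb_sub _ _ _ z
      simp only [h2] at h1
      refine h1.trans ?_
      rw [ENNReal.ofReal_mul hC20]
      refine mul_le_mul_right (le_trans ?_ (hmoll' ρ hρ2)) _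
      refine le_trans (le_of_eq ?_) (setLIntegral_le_lintegral Q' _)
      refine setLIntegral_congr_fun hQc.measurableSet fun z hz => ?_
      have h3 : pb (chartAt (E d) x₀).symm (extF x₀ (extDeriv B) - extF x₀ c) z =
          (ρ.normed volume ⋆[ContinuousLinearMap.lsmul ℝ ℝ, volume] c) z - c z := by
        rw [H962.extF_sub, ← hBd z]
        exact extF_symm x₀ _ (hthick hz)
      exact congrArg (fun t => ‖t‖ₑ) h3
    have hCd1 : 0 ≤ C1 * δ := by positivity
    have hCd2 : 0 ≤ C2 * δ := by positivity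
    obtain ⟨i1, i2, e1⟩ := H962.func_close hS (hdφ u) (hdφ0 u) hMu Lv hβ'i hβi hCd1 c1
    obtain ⟨i3, i4, e2⟩ := H962.func_close hS (hdφ v) (hdφ0 v) hMv Lu hβ'i hβi hCd1 c1
    obtain ⟨i5, i6, e3⟩ := H962.func_close hS hφ.continuous hφ0 hM0 Luv hγ'i hγi hCd2 c2
    have g1 : ∫ z, (β z ![v] * fderiv ℝ φ z u - β z ![u] * fderiv ℝ φ z v) =
        (∫ z, Lv (β z) * fderiv ℝ φ z u) - ∫ z, Lu (β z) * fderiv ℝ φ z v :=
      integral_sub i2 i4
    have g2 : ∫ z, (β' z ![v] * fderiv ℝ φ z u - β' z ![u] * fderiv ℝ φ z v) =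
        (∫ z, Lv (β' z) * fderiv ℝ φ z u) - ∫ z, Lu (β' z) * fderiv ℝ φ z v :=
      integral_sub i1 i3
    have g3 : ∫ z, γ z ![u, v] * φ z = ∫ z, Luv (γ z) * φ z := rfl
    have g4 : ∫ z, γ' z ![u, v] * φ z = ∫ z, Luv (γ' z) * φ z := rfl
    rw [g2, g4] at hform
    rw [g1, g3]
    have f1 := abs_le.1 e1
    have f2 := abs_le.1 e2
    have f3 := abs_le.1 e3
    rw [abs_le]
    constructor
    · rw [hK]
      linarith [f1.1, f1.2, f2.1, f2.2, f3.1, f3.2]
    · rw [hK]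
      linarith [f1.1, f1.2, f2.1, f2.2, f3.1, f3.2]
  have hzero : (∫ z, (β z ![v] * fderiv ℝ φ z u - β z ![u] * fderiv ℝ φ z v)) +
      ∫ z, γ z ![u, v] * φ z = 0 := by
    by_contra hne
    have hpos := abs_pos.2 hne
    set A := |(∫ z, (β z ![v] * fderiv ℝ φ z u - β z ![u] * fderiv ℝ φ z v)) +
      ∫ z, γ z ![u, v] * φ z| with hA
    have h1 := hest (A / (2 * (K + 1))) (by positivity)
    have h2 : K * (A / (2 * (K + 1))) < A := by
      rw [mul_div_assoc', div_lt_iff₀ (by positivity)]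
      nlinarith
    linarith
  linarith

end Pool.Agent.H819.DR
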