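import Mathlib
import Pool.Agent.H819.LN.WkCl
import Pool.Agent.H819.LG.Moll2

/-!
# The averaged homotopy operator
-/

set_option autoImplicit false

open Set Filter Topology MeasureTheory Metric ContinuousLinearMap
open scoped ContDiff ENNReal NNReal Convolution

noncomputable section

namespace Pool.Agent.H819.DR

open Pool.Agent.Y501.SY (E)
open Pool.Agent.H819.LN (WeakClosed)

variable {d : ℕ}

/-- the averaged homotopy operator
`(A θ)(z) = ∫_{B} ∫_0^1 ρ(y) θ(z + t y)(y, ·) dt dy` -/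
def hA (ρ : ContDiffBump (0 : E d)) (θ : E d → (E d) [⋀^Fin 2]→L[ℝ] ℝ) (z : E d) :
    (E d) [⋀^Fin 1]→L[ℝ] ℝ :=
  ∫ q in (closedBall (0 : E d) ρ.rOut) ×ˢ (Icc (0 : ℝ) 1),
    ρ.normed volume q.1 • (θ (z + q.2 • q.1)).curryLeft q.1

/-- the measure on the parameters -/
def nu (ρ : ContDiffBump (0 : E d)) : Measure (E d × ℝ) :=
  (volume : Measure (E d × ℝ)).restrict ((closedBall (0 : E d) ρ.rOut) ×ˢ (Icc (0 : ℝ) 1))

instance nu_fin (ρ : ContDiffBump (0 : E d)) : IsFiniteMeasure (nu ρ) :=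
  ⟨by
    rw [nu, Measure.restrict_apply_univ]
    exact ((isCompact_closedBall _ _).prod isCompact_Icc).measure_lt_top⟩

theorem nu_prod (ρ : ContDiffBump (0 : E d)) :
    nu ρ = (volume.restrict (closedBall (0 : E d) ρ.rOut)).prod
      (volume.restrict (Icc (0 : ℝ) 1)) := by
  rw [Measure.prod_restrict]
  rfl

theorem shear (ρ : ContDiffBump (0 : E d)) :
    MeasurePreserving (fun p : (E d × ℝ) × E d => (p.1, p.2 + p.1.2 • p.1.1))
      ((nu ρ).prod volume) ((nu ρ).prod volume) := by
  refine MeasurePreserving.skew_product (g := fun q z => z + q.2 • q.1)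
    (MeasurePreserving.id (nu ρ)) ?_ (Eventually.of_forall fun q => ?_)
  · have : Continuous (Function.uncurry fun (q : E d × ℝ) (z : E d) => z + q.2 • q.1) := by
      unfold Function.uncurry
      fun_prop
    exact this.measurable
  · exact (measurePreserving_add_right volume (q.2 • q.1)).map_eq

theorem comp_shear (ρ : ContDiffBump (0 : E d)) {F : Type} [NormedAddCommGroup F]
    {f : E d → F} (hf : Integrable f) :
    Integrable (fun p : (E d × ℝ) × E d => f (p.2 + p.1.2 • p.1.1)) ((nu ρ).prod volume) :=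
  (shear ρ).integrable_comp_of_integrable (hf.comp_snd (nu ρ))

/-- the integrand -/
theorem hF_int (ρ : ContDiffBump (0 : E d)) {θ : E d → (E d) [⋀^Fin 2]→L[ℝ] ℝ}
    (hθ : Integrable θ) :
    Integrable (fun p : (E d × ℝ) × E d =>
      ρ.normed volume p.1.1 • (θ (p.2 + p.1.2 • p.1.1)).curryLeft p.1.1)
      ((nu ρ).prod volume) := by
  have h1 := comp_shear ρ hθ
  have hρ : Continuous (ρ.normed volume) := (ρ.contDiff_normed (n := 0)).continuous
  obtain ⟨M, hM⟩ := (ρ.hasCompactSupport_normed (μ := volume)).mul_right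
    (f' := fun y : E d => ‖y‖) |>.exists_bound_of_continuous (hρ.mul continuous_norm)
  refine (h1.norm.const_mul M).mono' ?_ (Eventually.of_forall fun p => ?_)
  · have hc : Continuous (fun r : (E d × ((E d) [⋀^Fin 2]→L[ℝ] ℝ)) =>
        ρ.normed volume r.1 • r.2.curryLeft r.1) := by
      have h2 := (Pool.Agent.Y431.SY.curry_bb (E := E d)).continuous
      exact (hρ.comp continuous_fst).smul (h2.comp (continuous_snd.prodMk continuous_fst))
    have h3 : AEStronglyMeasurable (fun p : (E d × ℝ) × E d => p.1.1) ((nu ρ).prod volume) :=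
      (continuous_fst.comp continuous_fst).aestronglyMeasurable
    have h4 : AEStronglyMeasurable (fun p : (E d × ℝ) × E d => (p.1.1, θ (p.2 + p.1.2 • p.1.1)))
        ((nu ρ).prod volume) := h3.prodMk h1.aestronglyMeasurable
    have h5 := hc.comp_aestronglyMeasurable h4
    exact h5
  · rw [norm_smul]
    have h2 := Pool.Agent.Y431.SY.curry_bound (θ (p.2 + p.1.2 • p.1.1)) p.1.1
    have h3 : ‖ρ.normed volume p.1.1 * ‖p.1.1‖‖ ≤ M := hM p.1.1
    rw [norm_mul, norm_norm] at h3
    calc ‖ρ.normed volume p.1.1‖ * ‖(θ (p.2 + p.1.2 • p.1.1)).curryLeft p.1.1‖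
        ≤ ‖ρ.normed volume p.1.1‖ * (‖θ (p.2 + p.1.2 • p.1.1)‖ * ‖p.1.1‖) :=
          mul_le_mul_of_nonneg_left h2 (norm_nonneg _)
      _ = (‖ρ.normed volume p.1.1‖ * ‖p.1.1‖) * ‖θ (p.2 + p.1.2 • p.1.1)‖ := by ring
      _ ≤ M * ‖θ (p.2 + p.1.2 • p.1.1)‖ := mul_le_mul_of_nonneg_right h3 (norm_nonneg _)

theorem hA_integrable (ρ : ContDiffBump (0 : E d)) {θ : E d → (E d) [⋀^Fin 2]→L[ℝ] ℝ}
    (hθ : Integrable θ) : Integrable (hA ρ θ) :=
  (hF_int ρ hθ).integral_prod_right

open Pool.Agent.Y431.SY (ev ev_apply)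

theorem itm {θ : E d → (E d) [⋀^Fin 2]→L[ℝ] ℝ} (hθ : Integrable θ) (w : Fin 2 → E d)
    {ψ : E d → ℝ} (hψ : Continuous ψ) (hc : HasCompactSupport ψ) :
    Integrable (fun z => θ z w * ψ z) := by
  obtain ⟨M, hM⟩ := hc.exists_bound_of_continuous hψ
  have h1 := (ev w).integrable_comp hθ
  exact h1.mul_bdd hψ.aestronglyMeasurable (Eventually.of_forall hM)

theorem test_shift {φ : E d → ℝ} (hφ : ContDiff ℝ ∞ φ) (hc : HasCompactSupport φ) (c : E d) :
    ContDiff ℝ ∞ (fun z => φ (z - c)) ∧ HasCompactSupport (fun z => φ (z - c)) ∧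
    (∀ z w, fderiv ℝ (fun z => φ (z - c)) z w = fderiv ℝ φ (z - c) w) ∧
    ∀ z ∈ tsupport (fun z => φ (z - c)), z - c ∈ tsupport φ := by
  have h1 : ContDiff ℝ ∞ (fun z => φ (z - c)) := hφ.comp (by fun_prop)
  have h2 : HasCompactSupport (fun z => φ (z - c)) := by
    have := hc.comp_homeomorph (Homeomorph.subRight c)
    exact this
  refine ⟨h1, h2, fun z w => by rw [fderiv_comp_sub], fun z hz => ?_⟩
  have h3 : tsupport (fun z => φ (z - c)) ⊆ (fun z => z - c) ⁻¹' tsupport φ := by
    refine closure_minimal (fun z hz => subset_tsupport φ hz)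
      ((isClosed_tsupport φ).preimage (by fun_prop))
  exact h3 hz

theorem fd_cont {φ : E d → ℝ} (hφ : ContDiff ℝ ∞ φ) : Continuous (fderiv ℝ φ) :=
  hφ.continuous_fderiv (by simp)

theorem inner_id {ρ : ContDiffBump (0 : E d)} {θ : E d → (E d) [⋀^Fin 2]→L[ℝ] ℝ}
    (hθ : Integrable θ) {U V : Set (E d)}
    (hUV : ∀ z ∈ U, closedBall z ρ.rOut ⊆ V) (hcl : WeakClosed V θ)
    {φ : E d → ℝ} (hφ : ContDiff ℝ ∞ φ) (hc : HasCompactSupport φ) (hs : tsupport φ ⊆ U)
    (u v y : E d) {t : ℝ} (hy : ‖y‖ ≤ ρ.rOut) (ht : t ∈ Icc (0 : ℝ) 1) :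
    ∫ z, (θ (z + t • y) ![y, v] * fderiv ℝ φ z u - θ (z + t • y) ![y, u] * fderiv ℝ φ z v) =
      ∫ z, θ z ![u, v] * fderiv ℝ φ (z - t • y) y := by
  set c := t • y with hcdef
  obtain ⟨s1, s2, s3, s4⟩ := test_shift hφ hc c
  have hcn : ‖c‖ ≤ ρ.rOut := by
    rw [hcdef, norm_smul, Real.norm_of_nonneg ht.1]
    nlinarith [ht.1, ht.2, norm_nonneg y]
  have hsub : tsupport (fun z => φ (z - c)) ⊆ V := by
    intro z hz
    refine hUV _ (hs (s4 z hz)) ?_
    rw [mem_closedBall, dist_eq_norm]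
    simpa using hcn
  have hw := hcl _ s1 s2 hsub u v y
  simp only [s3] at hw
  have hD : ∀ w : E d, Continuous (fun z => fderiv ℝ φ (z - c) w) := fun w =>
    ((fd_cont hφ).comp (by fun_prop)).clm_apply continuous_const
  have hDc : ∀ w : E d, HasCompactSupport (fun z => fderiv ℝ φ (z - c) w) := by
    intro w
    have h1 : HasCompactSupport (fderiv ℝ φ) := hc.fderiv (𝕜 := ℝ)
    have h2 := h1.comp_homeomorph (Homeomorph.subRight c)
    exact h2.comp_left (g := fun L : E d →L[ℝ] ℝ => L w) rfl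
  have i1 := itm hθ ![y, v] (hD u) (hDc u)
  have i2 := itm hθ ![y, u] (hD v) (hDc v)
  have i3 := itm hθ ![u, v] (hD y) (hDc y)
  have i4 := itm hθ ![v, y] (hD u) (hDc u)
  have e1 := integral_add_right_eq_self (μ := volume) (fun w => θ w ![y, v] * fderiv ℝ φ (w - c) u -
    θ w ![y, u] * fderiv ℝ φ (w - c) v) c
  simp only [add_sub_cancel_right] at e1
  rw [e1]
  rw [Pool.Agent.H819.LN.int3 i4 i2 i3] at hw
  rw [integral_sub i1 i2]
  have e2 : ∫ z, θ z ![v, y] * fderiv ℝ φ (z - c) u = - ∫ z, θ z ![y, v] * fderiv ℝ φ (z - c) u := by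
    rw [← integral_neg]
    refine integral_congr_ae (Eventually.of_forall fun z => ?_)
    simp only
    rw [Pool.Agent.H819.LN.swap2]
    ring
  rw [e2] at hw
  linarith

/-- bounds for the bump function -/
theorem bump_bound (ρ : ContDiffBump (0 : E d)) :
    ∃ M : ℝ, 0 ≤ M ∧ ∀ y : E d, |ρ.normed volume y| * ‖y‖ ≤ M := by
  have hρ : Continuous (ρ.normed volume) := (ρ.contDiff_normed (n := 0)).continuous
  obtain ⟨M, hM⟩ := (ρ.hasCompactSupport_normed (μ := volume)).mul_right
    (f' := fun y : E d => ‖y‖) |>.exists_bound_of_continuous (hρ.mul continuous_norm)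
  have h : ∀ y : E d, |ρ.normed volume y| * ‖y‖ ≤ M := by
    intro y
    have h3 : ‖ρ.normed volume y * ‖y‖‖ ≤ M := hM y
    rwa [norm_mul, norm_norm] at h3
  exact ⟨M, (by positivity : (0 : ℝ) ≤ |ρ.normed volume 0| * ‖(0 : E d)‖).trans (h 0), h⟩

theorem ftc {φ : E d → ℝ} (hφ : ContDiff ℝ ∞ φ) (z y : E d) :
    ∫ t in Icc (0 : ℝ) 1, fderiv ℝ φ (z - t • y) y = φ z - φ (z - y) := by
  have hd : ∀ t : ℝ, HasDerivAt (fun t : ℝ => - φ (z - t • y)) (fderiv ℝ φ (z - t • y) y) t := by
    intro t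
    have h1 : HasDerivAt (fun t : ℝ => z - t • y) (-y) t := by
      have := ((hasDerivAt_id t).smul_const y).const_sub z
      simpa using this
    have h2 := ((hφ.differentiable (by simp) (z - t • y)).hasFDerivAt.comp_hasDerivAt t h1).neg
    have h3 : HasDerivAt (fun t : ℝ => - φ (z - t • y)) (-(fderiv ℝ φ (z - t • y) (-y))) t := h2
    rwa [map_neg, neg_neg] at h3
  have hcont : Continuous (fun t : ℝ => fderiv ℝ φ (z - t • y) y) :=
    ((fd_cont hφ).comp (by fun_prop)).clm_apply continuous_const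
  rw [integral_Icc_eq_integral_Ioc, ← intervalIntegral.integral_of_le zero_le_one,
    intervalIntegral.integral_eq_sub_of_hasDerivAt (fun t _ => hd t)
      (hcont.intervalIntegrable _ _)]
  simp
  ring

theorem param_int (ρ : ContDiffBump (0 : E d)) {φ : E d → ℝ} (hφ : ContDiff ℝ ∞ φ)
    (z : E d) :
    ∫ q, ρ.normed volume q.1 * fderiv ℝ φ (z - q.2 • q.1) q.1 ∂(nu ρ) =
      φ z - ∫ y, ρ.normed volume y * φ (z - y) := by
  have hρ : Continuous (ρ.normed volume) := (ρ.contDiff_normed (n := 0)).continuous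
  have hcont : Continuous (fun q : E d × ℝ =>
      ρ.normed volume q.1 * fderiv ℝ φ (z - q.2 • q.1) q.1) :=
    (hρ.comp continuous_fst).mul (((fd_cont hφ).comp (by fun_prop)).clm_apply continuous_fst)
  have hint : Integrable (fun q : E d × ℝ =>
      ρ.normed volume q.1 * fderiv ℝ φ (z - q.2 • q.1) q.1) (nu ρ) :=
    hcont.continuousOn.integrableOn_compact ((isCompact_closedBall _ _).prod isCompact_Icc)
  rw [nu_prod] at hint ⊢
  rw [integral_prod _ hint]
  have h1 : ∀ y : E d, ∫ t in Icc (0 : ℝ) 1, ρ.normed volume y * fderiv ℝ φ (z - t • y) y =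
      ρ.normed volume y * (φ z - φ (z - y)) := by
    intro y
    rw [integral_const_mul, ftc hφ]
  simp only [h1]
  rw [setIntegral_eq_integral_of_forall_compl_eq_zero]
  · have hcs : HasCompactSupport (ρ.normed volume) := ρ.hasCompactSupport_normed
    have j1 : Integrable (fun y => ρ.normed volume y * φ z) := by
      have : Integrable (ρ.normed volume) := hρ.integrable_of_hasCompactSupport hcs
      exact this.mul_const _
    have j2 : Integrable (fun y => ρ.normed volume y * φ (z - y)) :=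
      (hρ.mul (hφ.continuous.comp (by fun_prop))).integrable_of_hasCompactSupport hcs.mul_right
    simp only [mul_sub]
    rw [integral_sub j1 j2, integral_mul_const, ρ.integral_normed, one_mul]
  · intro y hy
    have : ρ.normed volume y = 0 := by
      have h2 := ρ.support_normed_eq (μ := volume)
      by_contra h3
      have h4 : y ∈ Function.support (ρ.normed volume) := h3
      rw [h2] at h4
      exact hy (ball_subset_closedBall h4)
    rw [this, zero_mul]

theorem fubini_B (ρ : ContDiffBump (0 : E d)) {g : E d → ℝ} (hg : Integrable g)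
    {φ : E d → ℝ} (hφ : ContDiff ℝ ∞ φ) (hc : HasCompactSupport φ) :
    Integrable (fun z => g z * (φ z - ∫ y, ρ.normed volume y * φ (z - y))) ∧
    ∫ q, ρ.normed volume q.1 * (∫ z, g z * fderiv ℝ φ (z - q.2 • q.1) q.1) ∂(nu ρ) =
      ∫ z, g z * (φ z - ∫ y, ρ.normed volume y * φ (z - y)) := by
  have hρ : Continuous (ρ.normed volume) := (ρ.contDiff_normed (n := 0)).continuous
  obtain ⟨M, hM0, hM⟩ := bump_bound ρ
  obtain ⟨M', hM'⟩ := (hc.fderiv (𝕜 := ℝ)).exists_bound_of_continuous (fd_cont hφ)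
  have hint : Integrable (fun p : (E d × ℝ) × E d =>
      g p.2 * (ρ.normed volume p.1.1 * fderiv ℝ φ (p.2 - p.1.2 • p.1.1) p.1.1))
      ((nu ρ).prod volume) := by
    have h1 : Integrable (fun p : (E d × ℝ) × E d => g p.2) ((nu ρ).prod volume) :=
      hg.comp_snd (nu ρ)
    have h2 : Continuous (fun p : (E d × ℝ) × E d =>
        ρ.normed volume p.1.1 * fderiv ℝ φ (p.2 - p.1.2 • p.1.1) p.1.1) :=
      (hρ.comp (continuous_fst.comp continuous_fst)).mul
        (((fd_cont hφ).comp (by fun_prop)).clm_apply (continuous_fst.comp continuous_fst))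
    refine h1.mul_bdd (c := M * M') h2.aestronglyMeasurable (Eventually.of_forall fun p => ?_)
    rw [norm_mul]
    have h3 := (fderiv ℝ φ (p.2 - p.1.2 • p.1.1)).le_opNorm p.1.1
    have h4 := hM' (p.2 - p.1.2 • p.1.1)
    have h5 := hM p.1.1
    have h6 : (0 : ℝ) ≤ M' := (norm_nonneg _).trans h4
    calc ‖ρ.normed volume p.1.1‖ * ‖fderiv ℝ φ (p.2 - p.1.2 • p.1.1) p.1.1‖
        ≤ ‖ρ.normed volume p.1.1‖ * (M' * ‖p.1.1‖) :=
          mul_le_mul_of_nonneg_left (h3.trans (mul_le_mul_of_nonneg_right h4 (norm_nonneg _)))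
            (norm_nonneg _)
      _ = (|ρ.normed volume p.1.1| * ‖p.1.1‖) * M' := by rw [Real.norm_eq_abs]; ring
      _ ≤ M * M' := mul_le_mul_of_nonneg_right h5 h6
  have hz : ∀ z : E d, ∫ q, g z * (ρ.normed volume q.1 * fderiv ℝ φ (z - q.2 • q.1) q.1) ∂(nu ρ) =
      g z * (φ z - ∫ y, ρ.normed volume y * φ (z - y)) := by
    intro z
    rw [integral_const_mul, param_int ρ hφ]
  constructor
  · have h1 := hint.integral_prod_right
    simp only [hz] at h1
    exact h1
  · have h1 := integral_integral_swap (μ := nu ρ) (ν := volume) (f := fun q z =>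
      g z * (ρ.normed volume q.1 * fderiv ℝ φ (z - q.2 • q.1) q.1)) hint
    simp only [hz] at h1
    rw [← h1]
    refine integral_congr_ae (Eventually.of_forall fun q => ?_)
    simp only
    rw [← integral_const_mul]
    refine integral_congr_ae (Eventually.of_forall fun z => ?_)
    simp only
    ring

theorem conv_C (ρ : ContDiffBump (0 : E d)) {g : E d → ℝ} (hg : Integrable g)
    {φ : E d → ℝ} (hφ : Continuous φ) (hc : HasCompactSupport φ) :
    Integrable (fun z => (∫ y, ρ.normed volume y * g (z - y)) * φ z) ∧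
    ∫ z, (∫ y, ρ.normed volume y * g (z - y)) * φ z =
      ∫ z, g z * ∫ y, ρ.normed volume y * φ (z - y) := by
  have hρ : Continuous (ρ.normed volume) := (ρ.contDiff_normed (n := 0)).continuous
  have hcs : HasCompactSupport (ρ.normed volume) := ρ.hasCompactSupport_normed
  have hρi : Integrable (ρ.normed volume) := hρ.integrable_of_hasCompactSupport hcs
  obtain ⟨M, hM⟩ := hc.exists_bound_of_continuous hφ
  have i1 : Integrable (fun p : E d × E d => (ρ.normed volume p.2 * g (p.1 - p.2)) * φ p.1)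
      (volume.prod volume) := by
    have h1 := hρi.convolution_integrand (lsmul ℝ ℝ) hg
    exact h1.mul_bdd (hφ.comp continuous_fst).aestronglyMeasurable
      (Eventually.of_forall fun p => hM p.1)
  have i2 : Integrable (fun p : E d × E d => ρ.normed volume p.1 * g p.2 * φ (p.2 - p.1))
      (volume.prod volume) := by
    have h1 := hρi.mul_prod hg
    exact h1.mul_bdd (hφ.comp (by fun_prop)).aestronglyMeasurable
      (Eventually.of_forall fun p => hM _)
  constructor
  · have h1 := i1.integral_prod_left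
    simp only [integral_mul_const] at h1
    exact h1
  · have h1 := integral_integral_swap (μ := volume) (ν := volume)
      (f := fun z y => (ρ.normed volume y * g (z - y)) * φ z) i1
    simp only [integral_mul_const] at h1
    rw [h1]
    have h2 : ∀ y : E d, ∫ z, ρ.normed volume y * g (z - y) * φ z =
        ρ.normed volume (-y) * ∫ z, g z * φ (z - (-y)) := by
      intro y
      rw [ρ.normed_neg, ← integral_const_mul]
      have h3 := integral_sub_right_eq_self (μ := volume)
        (fun z => ρ.normed volume y * (g z * φ (z - -y))) y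
      rw [← h3]
      refine integral_congr_ae (Eventually.of_forall fun z => ?_)
      simp only
      rw [sub_neg_eq_add, sub_add_cancel]
      ring
    simp only [h2]
    rw [integral_neg_eq_self (fun y => ρ.normed volume y * ∫ z, g z * φ (z - y)) volume]
    have h4 := integral_integral_swap (μ := volume) (ν := volume)
      (f := fun y z => ρ.normed volume y * g z * φ (z - y)) i2
    have h5 : ∀ y : E d, ∫ z, ρ.normed volume y * g z * φ (z - y) =
        ρ.normed volume y * ∫ z, g z * φ (z - y) := by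
      intro y
      simp only [mul_assoc]
      rw [integral_const_mul]
    have h6 : ∀ z : E d, ∫ y, ρ.normed volume y * g z * φ (z - y) =
        g z * ∫ y, ρ.normed volume y * φ (z - y) := by
      intro z
      rw [← integral_const_mul]
      refine integral_congr_ae (Eventually.of_forall fun y => ?_)
      simp only
      ring
    simp only [h5, h6] at h4
    exact h4

/-- **The homotopy formula** `d (A θ) = ρ * θ - θ` for weakly closed two-forms. -/
theorem hA_weak (ρ : ContDiffBump (0 : E d)) {θ : E d → (E d) [⋀^Fin 2]→L[ℝ] ℝ}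
    (hθ : Integrable θ) {U V : Set (E d)} (hV : IsOpen V)
    (hUV : ∀ z ∈ U, closedBall z ρ.rOut ⊆ V) (hcl : WeakClosed V θ) :
    Integrable (hA ρ θ) ∧
    ∀ φ : E d → ℝ, ContDiff ℝ ∞ φ → HasCompactSupport φ → tsupport φ ⊆ U → ∀ u v : E d,
      ∫ z, (hA ρ θ z ![v] * fderiv ℝ φ z u - hA ρ θ z ![u] * fderiv ℝ φ z v) =
      - ∫ z, ((ρ.normed volume ⋆[lsmul ℝ ℝ, volume] θ) z - θ z) ![u, v] * φ z := by
  refine ⟨hA_integrable ρ hθ, fun φ hφ hc hs u v => ?_⟩
  have hρ : Continuous (ρ.normed volume) := (ρ.contDiff_normed (n := 0)).continuous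
  have hcs : HasCompactSupport (ρ.normed volume) := ρ.hasCompactSupport_normed
  have hF := hF_int ρ hθ
  have hg : Integrable (fun z => θ z ![u, v]) := (ev ![u, v]).integrable_comp hθ
  obtain ⟨M', hM'⟩ := (hc.fderiv (𝕜 := ℝ)).exists_bound_of_continuous (fd_cont hφ)
  have hDb : ∀ w z : E d, ‖fderiv ℝ φ z w‖ ≤ M' * ‖w‖ := fun w z =>
    ((fderiv ℝ φ z).le_opNorm w).trans (mul_le_mul_of_nonneg_right (hM' z) (norm_nonneg _))
  have hD : ∀ w : E d, Continuous (fun z => fderiv ℝ φ z w) := fun w =>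
    (fd_cont hφ).clm_apply continuous_const
  -- the integrand
  have hev : ∀ (q : E d × ℝ) (z w : E d),
      (ρ.normed volume q.1 • (θ (z + q.2 • q.1)).curryLeft q.1) ![w] =
        ρ.normed volume q.1 * θ (z + q.2 • q.1) ![q.1, w] := fun q z w => rfl
  have i1 : ∀ w w' : E d, Integrable (fun p : (E d × ℝ) × E d =>
      ρ.normed volume p.1.1 * θ (p.2 + p.1.2 • p.1.1) ![p.1.1, w] * fderiv ℝ φ p.2 w')
      ((nu ρ).prod volume) := by
    intro w w'
    have h1 := (ev ![w]).integrable_comp hF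
    exact h1.mul_bdd ((hD w').comp continuous_snd).aestronglyMeasurable
      (Eventually.of_forall fun p => hDb w' p.2)
  have hval : ∀ w : E d, ∀ᵐ z : E d, hA ρ θ z ![w] =
      ∫ q, ρ.normed volume q.1 * θ (z + q.2 • q.1) ![q.1, w] ∂(nu ρ) := by
    intro w
    filter_upwards [hF.prod_left_ae] with z hz
    exact ((ev ![w]).integral_comp_comm hz).symm
  have i2 := (i1 v u).sub (i1 u v)
  have hL : ∫ z, (hA ρ θ z ![v] * fderiv ℝ φ z u - hA ρ θ z ![u] * fderiv ℝ φ z v) =
      ∫ z, ∫ q, (ρ.normed volume q.1 * θ (z + q.2 • q.1) ![q.1, v] * fderiv ℝ φ z u -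
        ρ.normed volume q.1 * θ (z + q.2 • q.1) ![q.1, u] * fderiv ℝ φ z v) ∂(nu ρ) := by
    refine integral_congr_ae ?_
    filter_upwards [hval v, hval u, (i1 v u).prod_left_ae, (i1 u v).prod_left_ae]
      with z h1 h2 h3 h4
    rw [h1, h2, integral_sub h3 h4, integral_mul_const, integral_mul_const]
  rw [hL]
  have hswap := integral_integral_swap (μ := nu ρ) (ν := volume) (f := fun q z =>
    ρ.normed volume q.1 * θ (z + q.2 • q.1) ![q.1, v] * fderiv ℝ φ z u -
        ρ.normed volume q.1 * θ (z + q.2 • q.1) ![q.1, u] * fderiv ℝ φ z v) i2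
  rw [← hswap]
  have hin : ∫ q, (∫ z, (ρ.normed volume q.1 * θ (z + q.2 • q.1) ![q.1, v] * fderiv ℝ φ z u -
        ρ.normed volume q.1 * θ (z + q.2 • q.1) ![q.1, u] * fderiv ℝ φ z v)) ∂(nu ρ) =
      ∫ q, ρ.normed volume q.1 *
        (∫ z, θ z ![u, v] * fderiv ℝ φ (z - q.2 • q.1) q.1) ∂(nu ρ) := by
    refine integral_congr_ae ?_
    have hmem : ∀ᵐ q ∂(nu ρ), q ∈ (closedBall (0 : E d) ρ.rOut) ×ˢ (Icc (0 : ℝ) 1) :=
      ae_restrict_mem (isClosed_closedBall.measurableSet.prod measurableSet_Icc)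
    filter_upwards [hmem] with q hq
    have h1 : ‖q.1‖ ≤ ρ.rOut := by
      have := hq.1
      rwa [mem_closedBall, dist_zero_right] at this
    have h2 := inner_id hθ hUV hcl hφ hc hs u v q.1 h1 hq.2
    rw [← h2, ← integral_const_mul]
    refine integral_congr_ae (Eventually.of_forall fun z => ?_)
    simp only
    ring
  rw [hin]
  obtain ⟨b1, b2⟩ := fubini_B ρ hg hφ hc
  obtain ⟨c1, c2⟩ := conv_C ρ hg hφ.continuous hc
  rw [b2]
  -- the right-hand side
  have hconv : ∀ z : E d, (ρ.normed volume ⋆[lsmul ℝ ℝ, volume] θ) z ![u, v] =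
      ∫ y, ρ.normed volume y * θ (z - y) ![u, v] := by
    intro z
    have hcb : Integrable (fun t => ρ.normed volume t • θ (z - t)) :=
      hcs.convolutionExists_left (lsmul ℝ ℝ) (μ := volume) hρ hθ.locallyIntegrable z
    have h3 := (ev ![u, v]).integral_comp_comm hcb
    exact h3.symm
  have i3 : Integrable (fun z => θ z ![u, v] * φ z) :=
    hg.mul_bdd hφ.continuous.aestronglyMeasurable
      (Eventually.of_forall (hc.exists_bound_of_continuous hφ.continuous).choose_spec)
  have e1 : ∫ z, ((ρ.normed volume ⋆[lsmul ℝ ℝ, volume] θ) z - θ z) ![u, v] * φ z =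
      (∫ z, (∫ y, ρ.normed volume y * θ (z - y) ![u, v]) * φ z) - ∫ z, θ z ![u, v] * φ z := by
    rw [← integral_sub c1 i3]
    refine integral_congr_ae (Eventually.of_forall fun z => ?_)
    simp only
    rw [ContinuousAlternatingMap.sub_apply, hconv]
    ring
  have i4 : Integrable (fun z => θ z ![u, v] * ∫ y, ρ.normed volume y * φ (z - y)) := by
    have := i3.sub b1
    refine this.congr (Eventually.of_forall fun z => ?_)
    simp only [Pi.sub_apply]
    ring
  rw [e1, c2, neg_sub, ← integral_sub i3 i4]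
  refine integral_congr_ae (Eventually.of_forall fun z => ?_)
  simp only
  ring

end Pool.Agent.H819.DR
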