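import Mathlib
import Pool.Agent.H819.DR.HomA
import Pool.Graph.R_seed8.Y431.SY.HT

/-!
# Pseudo-locality of the averaged homotopy operator
-/

set_option autoImplicit false

open Set Filter Topology MeasureTheory Metric ContinuousLinearMap
open scoped ContDiff ENNReal NNReal Convolution Manifold

noncomputable section

namespace Pool.Agent.H819.DR

open Pool.Agent.Y501.SY (E)
open Pool.Agent.H819.LN (WeakClosed)

variable {d : ℕ}

/-- **Pseudo-locality.** -/
theorem hA_smooth (ρ : ContDiffBump (0 : E d)) {θ : E d → (E d) [⋀^Fin 2]→L[ℝ] ℝ}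
    {W : Set (E d)} (hW : IsOpen W) (hs : ContDiffOn ℝ ∞ θ W) {z : E d}
    (hz : closedBall z ρ.rOut ⊆ W) : ContDiffAt ℝ ∞ (hA ρ θ) z := by
  obtain ⟨κ, hκ0, hκ1, -⟩ := exists_contMDiffMap_zero_one_nhds_of_isClosed (n := (⊤ : ℕ∞)) (𝓡 d)
    hW.isClosed_compl (isClosed_closedBall (x := z) (ε := ρ.rOut)) (by
      rw [Set.disjoint_left]
      intro x hx hx'
      exact hx (hz hx'))
  have hκ : ContDiff ℝ ∞ (fun z => κ z) := κ.contMDiff.contDiff
  obtain ⟨θ', hθ'⟩ : ∃ θ' : E d → (E d) [⋀^Fin 2]→L[ℝ] ℝ, θ' = fun z => κ z • θ z := ⟨_, rfl⟩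
  have hs' : ContDiff ℝ ∞ θ' := by
    rw [contDiff_iff_contDiffAt]
    intro z
    by_cases hz : z ∈ W
    · rw [hθ']
      exact hκ.contDiffAt.smul (hs.contDiffAt (hW.mem_nhds hz))
    · have h1 : ∀ᶠ x in 𝓝 z, κ x = 0 := hκ0.filter_mono (nhds_le_nhdsSet hz)
      refine (contDiffAt_const (c := (0 : (E d) [⋀^Fin 2]→L[ℝ] ℝ))).congr_of_eventuallyEq ?_
      filter_upwards [h1] with x hx
      rw [hθ']
      simp only
      rw [hx, zero_smul]
  have hK : IsCompact ((closedBall (0 : E d) ρ.rOut) ×ˢ (Icc (0 : ℝ) 1)) :=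
    (isCompact_closedBall _ _).prod isCompact_Icc
  have hsm : ContDiff ℝ ∞ (hA ρ θ') := by
    have h1 : ContDiff ℝ ∞ (fun q : E d × (E d × ℝ) => ρ.normed volume q.2.1) :=
      ρ.contDiff_normed.comp (contDiff_fst.comp contDiff_snd)
    have h2 : ContDiff ℝ ∞ (fun q : E d × (E d × ℝ) => θ' (q.1 + q.2.2 • q.2.1)) :=
      hs'.comp (contDiff_fst.add ((contDiff_snd.comp contDiff_snd).smul
        (contDiff_fst.comp contDiff_snd)))
    have h3 : ContDiff ℝ ∞ (fun q : E d × (E d × ℝ) => q.2.1) :=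
      contDiff_fst.comp contDiff_snd
    have h4 : ContDiff ℝ ∞ (fun q : E d × (E d × ℝ) =>
        (θ' (q.1 + q.2.2 • q.2.1)).curryLeft q.2.1) := by
      have h := (Pool.Agent.Y431.SY.curry_bb (E := E d)).contDiff (n := ∞)
      exact ContDiff.comp (g := fun p : ((E d) [⋀^Fin 2]→L[ℝ] ℝ) × (E d) =>
        p.1.curryLeft p.2) (f := fun q : E d × (E d × ℝ) => (θ' (q.1 + q.2.2 • q.2.1), q.2.1)) h
        (h2.prodMk h3)
    exact Pool.Agent.Y431.SY.contDiff_setInt volume hK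
      (R := fun q : E d × (E d × ℝ) =>
        ρ.normed volume q.2.1 • (θ' (q.1 + q.2.2 • q.2.1)).curryLeft q.2.1) (h1.smul h4)
  have hev : hA ρ θ =ᶠ[𝓝 z] hA ρ θ' := by
    obtain ⟨O, hO, hOs, hO1⟩ := mem_nhdsSet_iff_exists.1 hκ1
    obtain ⟨δ, hδ, hδO⟩ := (isCompact_closedBall z ρ.rOut).exists_thickening_subset_open hO hOs
    filter_upwards [ball_mem_nhds z hδ] with x hx
    refine setIntegral_congr_fun hK.measurableSet fun q hq => ?_
    have hq1 : x + q.2 • q.1 ∈ O := by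
      refine hδO (mem_thickening_iff.2 ⟨z + q.2 • q.1, ?_, ?_⟩)
      · rw [mem_closedBall, dist_eq_norm, add_sub_cancel_left, norm_smul]
        have h5 : ‖q.1‖ ≤ ρ.rOut := by
          have := hq.1
          rwa [mem_closedBall, dist_zero_right] at this
        have h6 : ‖q.2‖ ≤ 1 := by
          rw [Real.norm_eq_abs, abs_of_nonneg hq.2.1]
          exact hq.2.2
        calc ‖q.2‖ * ‖q.1‖ ≤ 1 * ρ.rOut :=
              mul_le_mul h6 h5 (norm_nonneg _) zero_le_one
          _ = ρ.rOut := one_mul _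
      · rw [dist_add_right]
        exact hx
    have hκq : κ (x + q.2 • q.1) = 1 := hO1 hq1
    change ρ.normed volume q.1 • (θ (x + q.2 • q.1)).curryLeft q.1 =
      ρ.normed volume q.1 • (θ' (x + q.2 • q.1)).curryLeft q.1
    rw [hθ']
    simp only
    rw [hκq, one_smul]
  exact hsm.contDiffAt.congr_of_eventuallyEq hev

end Pool.Agent.H819.DR
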