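import Mathlib
import Pool.Agent.H819.LG.Ext
import Pool.Agent.H819.LG.CV
import Pool.Agent.H819.LN.WkCl

/-!
# Smoothness at a point; weakly closed smooth forms are closed
-/

set_option autoImplicit false

open Set Filter Topology MeasureTheory Metric
open scoped Manifold ContDiff ENNReal NNReal

noncomputable section

namespace Pool.Agent.H819.DR

open Pool.Agent.Y501.SY
open Pool.Agent.H819
open Pool.Agent.H819.LG (trD tr_smooth isOpen_trD pb_tr)
open Pool.Agent.H819.LN (WeakClosed)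

variable {d : ℕ} {X : Type} [TopologicalSpace X] [ChartedSpace (E d) X] [IsManifold (𝓡 d) ∞ X]

/-- the form is smooth near the point with coordinate `z` in the chart at `x₀` -/
def SmAt {k : ℕ} (x₀ : X) (θ : Form d X k) (z : E d) : Prop :=
  ∀ᶠ z' in 𝓝 z, ContDiffAt ℝ ∞ (pb (chartAt (E d) x₀).symm θ) z'

/-- the pull-back by a smooth map, near a point, through a chart -/
theorem smo_near {k : ℕ} {x₀ : X} (θ : Form d X k) {U : Set (E d)} {φ : E d → X} (hU : IsOpen U)
    (hφ : ContMDiffOn (𝓡 d) (𝓡 d) ∞ φ U) {p : E d} (hp : p ∈ U)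
    (hs : φ p ∈ (chartAt (E d) x₀).source) : ContDiffAt ℝ ∞ (chartAt (E d) x₀ ∘ φ) p ∧
      pb φ θ =ᶠ[𝓝 p] fun q => (pb (chartAt (E d) x₀).symm θ
        ((chartAt (E d) x₀ ∘ φ) q)).compContinuousLinearMap
        (fderiv ℝ (chartAt (E d) x₀ ∘ φ) q) := by
  have key : ∀ q ∈ U, φ q ∈ (chartAt (E d) x₀).source →
      ContDiffAt ℝ ∞ (chartAt (E d) x₀ ∘ φ) q := by
    intro q hq hqs
    have h1 : ContMDiffAt (𝓡 d) (𝓡 d) ∞ φ q := hφ.contMDiffAt (hU.mem_nhds hq)
    have h2 : ContMDiffAt (𝓡 d) (𝓡 d) ∞ (chartAt (E d) x₀) (φ q) := contMDiffOn_chart.contMDiffAt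
      ((chartAt (E d) x₀).open_source.mem_nhds hqs)
    exact contMDiffAt_iff_contDiffAt.1 (h2.comp q h1)
  refine ⟨key p hp hs, ?_⟩
  have hev : ∀ᶠ q in 𝓝 p, q ∈ U ∧ φ q ∈ (chartAt (E d) x₀).source := by
    have h1 : ContMDiffAt (𝓡 d) (𝓡 d) ∞ φ p := hφ.contMDiffAt (hU.mem_nhds hp)
    have h3 : ∀ᶠ q in 𝓝 p, q ∈ U := hU.mem_nhds hp
    exact h3.and (h1.continuousAt.eventually ((chartAt (E d) x₀).open_source.mem_nhds hs))
  filter_upwards [hev.eventually_nhds] with q hq
  obtain ⟨hqU, hqs⟩ := hq.self_of_nhds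
  have h4 : φ =ᶠ[𝓝 q] (chartAt (E d) x₀).symm ∘ (chartAt (E d) x₀ ∘ φ) := by
    filter_upwards [hq] with y hy
    exact ((chartAt (E d) x₀).left_inv hy.2).symm
  rw [LG.pb_congr θ h4]
  exact LG.pb_comp θ (LG.mdiff_symm x₀ ((chartAt (E d) x₀).map_source hqs))
    ((key q hqU hqs).differentiableAt (by simp))

/-- Independence of the chart.  Proof: near `z` one has
`pb₀ θ z' = (pb₁ θ (tr z')).compContinuousLinearMap (fderiv (tr) z')` (`LG.pb_tr`, `trD` is open),
and `tr` is smooth (`LG.tr_smooth`); compose with `Pool.Agent.Y604.SY.contDiff_pull` as in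
`LG.smooth_extF`. -/
theorem SmAt.change {k : ℕ} {x₀ x₁ : X} {θ : Form d X k} {z : E d}
    (hz : z ∈ trD (d := d) x₀ x₁) (h : SmAt x₁ θ (LG.tr x₀ x₁ z)) : SmAt x₀ θ z := by
  unfold SmAt at h ⊢
  have h0 : ContinuousAt (LG.tr (d := d) x₀ x₁) z := (LG.tr_diff hz).continuousAt
  filter_upwards [h0.eventually h, (isOpen_trD x₀ x₁).mem_nhds hz] with y hy hyD
  have h1 : ContDiffAt ℝ ∞ (LG.tr (d := d) x₀ x₁) y :=
    (tr_smooth x₀ x₁).contDiffAt ((isOpen_trD x₀ x₁).mem_nhds hyD)
  have h2 : pb (chartAt (E d) x₀).symm θ =ᶠ[𝓝 y] fun q =>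
      (pb (chartAt (E d) x₁).symm θ (LG.tr x₀ x₁ q)).compContinuousLinearMap
        (fderiv ℝ (LG.tr (d := d) x₀ x₁) q) := by
    filter_upwards [(isOpen_trD x₀ x₁).mem_nhds hyD] with q hq
    exact pb_tr θ hq
  refine ContDiffAt.congr_of_eventuallyEq ?_ h2
  have h3 : ContDiffAt ℝ ∞ (fun q => pb (chartAt (E d) x₁).symm θ (LG.tr x₀ x₁ q)) y := hy.comp y h1
  have h4 : ContDiffAt ℝ ∞ (fderiv ℝ (LG.tr (d := d) x₀ x₁)) y := h1.fderiv_right (by simp)
  exact (Pool.Agent.Y604.SY.contDiff_pull (ι := Fin k) (V := E d) (V' := E d)).contDiffAt.comp y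
    (h3.prodMk h4)

/-- A form which is smooth near each point in one chart is smooth.  Proof: as before, for a smooth
parametrization `φ` near `p` with `φ p = x` write `φ = (chartAt x).symm ∘ (chartAt x ∘ φ)` near `p`
(`LG.pb_comp`, `LG.pb_congr`, see `extF_near` in `LG/Ext.lean`). -/
theorem isSmooth_of_smAt {k : ℕ} {θ : Form d X k}
    (h : ∀ x : X, SmAt x θ (chartAt (E d) x x)) : IsSmooth θ := by
  intro U φ hU hφ p hp
  refine ContDiffAt.contDiffWithinAt ?_
  obtain ⟨h1, h2⟩ := smo_near (x₀ := φ p) θ hU hφ hp (mem_chart_source (E d) (φ p))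
  refine ContDiffAt.congr_of_eventuallyEq ?_ h2
  have h0 : ContDiffAt ℝ ∞ (pb (chartAt (E d) (φ p)).symm θ)
      ((chartAt (E d) (φ p) ∘ φ) p) := (h (φ p)).self_of_nhds
  have h3 : ContDiffAt ℝ ∞ (fun q => pb (chartAt (E d) (φ p)).symm θ
      ((chartAt (E d) (φ p) ∘ φ) q)) p := h0.comp p h1
  have h4 : ContDiffAt ℝ ∞ (fderiv ℝ (chartAt (E d) (φ p) ∘ φ)) p := h1.fderiv_right (by simp)
  exact (Pool.Agent.Y604.SY.contDiff_pull (ι := Fin k) (V := E d) (V' := E d)).contDiffAt.comp p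
    (h3.prodMk h4)

/-- the cyclic sum of derivatives of a two-form -/
def cyc (θ : E d → (E d) [⋀^Fin 2]→L[ℝ] ℝ) (a b c z : E d) : ℝ :=
  fderiv ℝ θ z a ![b, c] + fderiv ℝ θ z b ![c, a] + fderiv ℝ θ z c ![a, b]

omit [IsManifold (𝓡 d) ∞ X] in
/-- weakly closed smooth forms on an open subset of the model space are closed -/
theorem cyc_zero {U : Set (E d)} (hU : IsOpen U) {θ : E d → (E d) [⋀^Fin 2]→L[ℝ] ℝ}
    (hθ : ContDiffOn ℝ ∞ θ U) (hw : WeakClosed U θ) (a b c : E d) : ∀ z ∈ U, cyc θ a b c z = 0 := by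
  have hfd : ContinuousOn (fderiv ℝ θ) U := hθ.continuousOn_fderiv_of_isOpen hU (by simp)
  have hcont : ContinuousOn (cyc θ a b c) U := by
    have h1 : ∀ (x : E d) (v : Fin 2 → E d), ContinuousOn (fun z => fderiv ℝ θ z x v) U := by
      intro x v
      have h2 : ContinuousOn (fun z => fderiv ℝ θ z x) U := hfd.clm_apply continuousOn_const
      exact (Pool.Agent.Y431.SY.ev v).continuous.comp_continuousOn h2
    exact ((h1 a _).add (h1 b _)).add (h1 c _)
  have hae : ∀ᵐ z, z ∈ U → cyc θ a b c z = 0 := by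
    refine hU.ae_eq_zero_of_integral_contDiff_smul_eq_zero
      (hcont.locallyIntegrableOn hU.measurableSet) ?_
    intro φ hφ hc ht
    -- the products
    have key : ∀ v : Fin 2 → E d, ContDiff ℝ 1 (fun z => φ z * θ z v) := by
      intro v
      rw [contDiff_iff_contDiffAt]
      intro z
      by_cases hz : z ∈ U
      · have h1 : ContDiffAt ℝ ∞ (fun z => θ z v) z :=
          (Pool.Agent.Y431.SY.ev v).contDiff.contDiffAt.comp z (hθ.contDiffAt (hU.mem_nhds hz))
        exact ((hφ.contDiffAt).mul h1).of_le (by simp)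
      · have h1 : z ∉ tsupport φ := fun h => hz (ht h)
        have h2 : (fun z => φ z * θ z v) =ᶠ[𝓝 z] fun _ => 0 := by
          filter_upwards [(isClosed_tsupport φ).isOpen_compl.mem_nhds h1] with y hy
          rw [image_eq_zero_of_notMem_tsupport hy, zero_mul]
        exact contDiffAt_const.congr_of_eventuallyEq h2
    have hsup : ∀ v : Fin 2 → E d, HasCompactSupport (fun z => φ z * θ z v) :=
      fun v => hc.mul_right
    have i1 := LN.int_fderiv_zero (key ![b, c]) (hsup _) a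
    have i2 := LN.int_fderiv_zero (key ![c, a]) (hsup _) b
    have i3 := LN.int_fderiv_zero (key ![a, b]) (hsup _) c
    have hsum : ∫ z, (fderiv ℝ (fun z => φ z * θ z ![b, c]) z a +
        fderiv ℝ (fun z => φ z * θ z ![c, a]) z b +
        fderiv ℝ (fun z => φ z * θ z ![a, b]) z c) = 0 := by
      rw [LN.int3 i1.1 i2.1 i3.1, i1.2, i2.2, i3.2]
      simp
    have hS : IsCompact (tsupport φ) := hc
    have hθl : LocallyIntegrableOn θ U := hθ.continuousOn.locallyIntegrableOn hU.measurableSet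
    have hD : ∀ w : E d, Continuous (fun z => fderiv ℝ φ z w) :=
      fun w => (LN.dir_smooth hφ w).continuous
    have hD0 : ∀ w z, z ∉ tsupport φ → fderiv ℝ φ z w = 0 := by
      intro w z hz
      rw [fderiv_of_notMem_tsupport (𝕜 := ℝ) hz]
      rfl
    have iT : ∀ (v : Fin 2 → E d) (w : E d), Integrable (fun z => θ z v * fderiv ℝ φ z w) :=
      fun v w => LN.int_term hS ht hθl (hD w) (hD0 w) v
    have j1 := LN.int3_int i1.1 i2.1 i3.1
    have j2 := LN.int3_int (iT ![b, c] a) (iT ![c, a] b) (iT ![a, b] c)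
    have hw' := hw φ hφ hc ht a b c
    have hsub := integral_sub j1 j2
    rw [hsum, hw', sub_zero] at hsub
    rw [← hsub]
    refine integral_congr_ae (Eventually.of_forall fun z => ?_)
    show φ z • cyc θ a b c z = (fderiv ℝ (fun z => φ z * θ z ![b, c]) z a +
        fderiv ℝ (fun z => φ z * θ z ![c, a]) z b + fderiv ℝ (fun z => φ z * θ z ![a, b]) z c) -
        (θ z ![b, c] * fderiv ℝ φ z a + θ z ![c, a] * fderiv ℝ φ z b +
        θ z ![a, b] * fderiv ℝ φ z c)
    by_cases hz : z ∈ U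
    · have hd : DifferentiableAt ℝ θ z := (hθ.contDiffAt (hU.mem_nhds hz)).differentiableAt (by simp)
      have hφd : DifferentiableAt ℝ φ z := hφ.differentiable (by simp) z
      have hev : ∀ v : Fin 2 → E d, HasFDerivAt (fun z => θ z v)
          ((Pool.Agent.Y431.SY.ev v).comp (fderiv ℝ θ z)) z :=
        fun v => (Pool.Agent.Y431.SY.ev v).hasFDerivAt.comp z hd.hasFDerivAt
      have hpr : ∀ (v : Fin 2 → E d) (w : E d), fderiv ℝ (fun z => φ z * θ z v) z w =
          φ z * fderiv ℝ θ z w v + θ z v * fderiv ℝ φ z w := by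
        intro v w
        have h1 := hev v
        have h2 := (hφd.hasFDerivAt.mul h1).fderiv
        have h3 : fderiv ℝ (fun z => φ z * θ z v) z =
          φ z • (Pool.Agent.Y431.SY.ev v).comp (fderiv ℝ θ z) + θ z v • fderiv ℝ φ z := h2
        rw [h3]
        rfl
      rw [hpr, hpr, hpr, smul_eq_mul]
      unfold cyc
      ring
    · have h1 : z ∉ tsupport φ := fun h => hz (ht h)
      have h2 : fderiv ℝ φ z = 0 := fderiv_of_notMem_tsupport (𝕜 := ℝ) h1
      have h3 : ∀ (v : Fin 2 → E d), fderiv ℝ (fun z => φ z * θ z v) z = 0 := by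
        intro v
        apply fderiv_of_notMem_tsupport (𝕜 := ℝ)
        intro h
        exact h1 (tsupport_mul_subset_left h)
      rw [h2, h3, h3, h3, image_eq_zero_of_notMem_tsupport h1]
      simp
  have h2 : cyc θ a b c =ᵐ[volume.restrict U] fun _ => 0 := by
    rw [Filter.EventuallyEq, ae_restrict_iff' hU.measurableSet]
    exact hae
  exact fun z hz => Measure.eqOn_open_of_ae_eq h2 hU hcont continuousOn_const hz

omit [IsManifold (𝓡 d) ∞ X] in
/-- the exterior derivative in terms of the cyclic sum -/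
theorem extDeriv_cyc {θ : E d → (E d) [⋀^Fin 2]→L[ℝ] ℝ} {z : E d} (hd : DifferentiableAt ℝ θ z)
    (a b c : E d) : extDeriv θ z ![a, b, c] = cyc θ a b c z := by
  have hev : ∀ v : Fin 2 → E d, HasFDerivAt (fun z => θ z v)
      ((Pool.Agent.Y431.SY.ev v).comp (fderiv ℝ θ z)) z :=
    fun v => (Pool.Agent.Y431.SY.ev v).hasFDerivAt.comp z hd.hasFDerivAt
  rw [extDeriv_apply hd, Fin.sum_univ_three]
  have e0 : (0 : Fin 3).removeNth ![a, b, c] = ![b, c] := by
    funext i; fin_cases i <;> rfl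
  have e1 : (1 : Fin 3).removeNth ![a, b, c] = ![a, c] := by
    funext i; fin_cases i <;> rfl
  have e2 : (2 : Fin 3).removeNth ![a, b, c] = ![a, b] := by
    funext i; fin_cases i <;> rfl
  rw [e0, e1, e2, (hev _).fderiv, (hev _).fderiv, (hev _).fderiv]
  have h2 : (fderiv ℝ θ z b) ![c, a] = - (fderiv ℝ θ z b) ![a, c] := LN.swap2 _ _ _
  unfold cyc
  rw [h2]
  have h3 : (fderiv ℝ θ z a) ![b, c] + -(fderiv ℝ θ z b) ![a, c] + (fderiv ℝ θ z c) ![a, b] =
      (((Pool.Agent.Y431.SY.ev ![b, c]).comp (fderiv ℝ θ z)) a) -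
      (((Pool.Agent.Y431.SY.ev ![a, c]).comp (fderiv ℝ θ z)) b) +
      (((Pool.Agent.Y431.SY.ev ![a, b]).comp (fderiv ℝ θ z)) c) := by
    rw [← sub_eq_add_neg]
    rfl
  rw [h3]
  simp
  ring

/-- Smooth weakly closed two-forms are closed.  Proof: in the chart at `x₀` put
`g = extDeriv (pb .. w)`, continuous on the target.  For a test function `φ` integrate by parts
(`LN.int_fderiv_zero` applied to the products `φ * θ_{bc}`; `LN.smooth_part` in `LN/WkCl.lean` does
the same computation in the other direction) to get `∫ (g z ![a, b, c]) φ z = 0`; so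
`g z ![a, b, c] = 0` on the target (`IsOpen.ae_eq_zero_of_integral_contDiff_smul_eq_zero` and
continuity).  For a general smooth parametrization `φ` near `p`: `φ = (chartAt x).symm ∘ τ` with
`τ = chartAt x ∘ φ` smooth near `p`, `pb φ w = pull-back of pb .. w by τ` near `p`, and
`extDeriv_pullback`. -/
theorem closed_of_weak {w : Form d X 2} (hw : IsSmooth w)
    (h : ∀ x₀ : X, WeakClosed (chartAt (E d) x₀).target (pb (chartAt (E d) x₀).symm w)) :
    IsClosedForm w := by
  have key : ∀ (x₀ : X), ∀ z ∈ (chartAt (E d) x₀).target,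
      extDeriv (pb (chartAt (E d) x₀).symm w) z = 0 := by
    intro x₀ z hz
    have hs := LG.smooth_chart hw x₀
    have hd : DifferentiableAt ℝ (pb (chartAt (E d) x₀).symm w) z :=
      (hs.contDiffAt ((chartAt (E d) x₀).open_target.mem_nhds hz)).differentiableAt (by simp)
    ext v
    have hv : v = ![v 0, v 1, v 2] := by
      funext i; fin_cases i <;> rfl
    rw [hv, extDeriv_cyc hd, cyc_zero (chartAt (E d) x₀).open_target hs (h x₀) _ _ _ z hz]
    rfl
  intro U φ hU hφ p hp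
  obtain ⟨h1, h2⟩ := smo_near (x₀ := φ p) w hU hφ hp (mem_chart_source (E d) (φ p))
  have ht : (chartAt (E d) (φ p) ∘ φ) p ∈ (chartAt (E d) (φ p)).target :=
    mem_chart_target (E d) (φ p)
  have hs := LG.smooth_chart hw (φ p)
  have hd : DifferentiableAt ℝ (pb (chartAt (E d) (φ p)).symm w) ((chartAt (E d) (φ p) ∘ φ) p) :=
    (hs.contDiffAt ((chartAt (E d) (φ p)).open_target.mem_nhds ht)).differentiableAt (by simp)
  rw [h2.extDeriv_eq, extDeriv_pullback (r := ∞) hd h1 LG.smooth2, key (φ p) _ ht]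
  rfl

end Pool.Agent.H819.DR
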