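import Mathlib
import Pool.Agent.H819.DR.Smo
import Pool.Agent.H819.DR.ExtW
import Pool.Agent.H819.DR.HomS

/-!
# Closed two-forms with integrable coefficients
-/

set_option autoImplicit false

open Set Filter Topology MeasureTheory Metric
open scoped Manifold ContDiff ENNReal NNReal

noncomputable section

namespace Pool.Agent.H819.DR

open Pool.Agent.Y501.SY
open Pool.Agent.H819
open Pool.Agent.H819.LG (WeakPrim)
open Pool.Agent.H819.LN (WeakClosed)

variable {d : ℕ} {X : Type} [TopologicalSpace X] [ChartedSpace (E d) X]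

/-- smooth near the point -/
def SmX {k : ℕ} (θ : Form d X k) (p : X) : Prop := SmAt p θ (chartAt (E d) p p)

/-- locally integrable and closed in the sense of distributions -/
structure L1Closed (θ : Form d X 2) : Prop where
  int : ∀ x₀ : X, LocallyIntegrableOn (pb (chartAt (E d) x₀).symm θ) (chartAt (E d) x₀).target
  closed : ∀ x₀ : X, WeakClosed (chartAt (E d) x₀).target (pb (chartAt (E d) x₀).symm θ)

theorem locInt_add {F : Type} [NormedAddCommGroup F] {f g : E d → F} {T : Set (E d)}
    (hf : LocallyIntegrableOn f T) (hg : LocallyIntegrableOn g T) :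
    LocallyIntegrableOn (fun z => f z + g z) T := hf.add hg

theorem locInt_neg {F : Type} [NormedAddCommGroup F] {f : E d → F} {T : Set (E d)}
    (hf : LocallyIntegrableOn f T) : LocallyIntegrableOn (fun z => - f z) T := hf.neg

theorem int_test {k : ℕ} {T : Set (E d)} {f : E d → (E d) [⋀^Fin k]→L[ℝ] ℝ}
    (hf : LocallyIntegrableOn f T) {ψ : E d → ℝ} (hψ : Continuous ψ) {S : Set (E d)}
    (hS : IsCompact S) (hST : S ⊆ T) (h0 : ∀ z, z ∉ S → ψ z = 0) (v : Fin k → E d) :
    Integrable (fun z => f z v * ψ z) := by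
  have h1 := LG.int_bilin (ContinuousLinearMap.lsmul ℝ ℝ) hS hST hψ h0 hf
  have h2 := (Pool.Agent.Y431.SY.ev v).integrable_comp h1
  refine h2.congr (Eventually.of_forall fun z => ?_)
  show (ψ z • f z) v = _
  rw [ContinuousAlternatingMap.smul_apply, smul_eq_mul, mul_comm]

theorem fd_zero {φ : E d → ℝ} {v : E d} : ∀ z, z ∉ tsupport φ → fderiv ℝ φ z v = 0 := by
  intro z hz
  rw [fderiv_of_notMem_tsupport (𝕜 := ℝ) hz]
  rfl

theorem fd_cont' {φ : E d → ℝ} (hφ : ContDiff ℝ ∞ φ) (v : E d) :
    Continuous (fun z => fderiv ℝ φ z v) :=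
  (hφ.continuous_fderiv (by simp)).clm_apply continuous_const

/-- the weak exterior derivative is additive -/
theorem weakPrim_add {α β : Form d X 1} {η ξ : Form d X 2} (h : WeakPrim α η) (h' : WeakPrim β ξ) :
    WeakPrim (α + β) (η + ξ) := by
  refine ⟨fun x₀ => ?_, fun x₀ => ?_, fun x₀ φ hφ hc ht u v => ?_⟩
  · exact locInt_add (h.int1 x₀) (h'.int1 x₀)
  · exact locInt_add (h.int2 x₀) (h'.int2 x₀)
  · have e1 := h.weak x₀ φ hφ hc ht u v
    have e2 := h'.weak x₀ φ hφ hc ht u v
    have i : ∀ {γ : Form d X 1}, LocallyIntegrableOn (pb (chartAt (E d) x₀).symm γ)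
        (chartAt (E d) x₀).target → ∀ a b : E d,
        Integrable (fun z => pb (chartAt (E d) x₀).symm γ z ![a] * fderiv ℝ φ z b) :=
      fun hγ a b => int_test hγ (fd_cont' hφ b) hc ht fd_zero _
    have j : ∀ {γ : Form d X 2}, LocallyIntegrableOn (pb (chartAt (E d) x₀).symm γ)
        (chartAt (E d) x₀).target → Integrable (fun z => pb (chartAt (E d) x₀).symm γ z ![u, v] *
          φ z) := fun hγ => int_test hγ hφ.continuous hc ht
            (fun z hz => image_eq_zero_of_notMem_tsupport hz) _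
    have k1 : Integrable (fun z => pb (chartAt (E d) x₀).symm α z ![v] * fderiv ℝ φ z u -
        pb (chartAt (E d) x₀).symm α z ![u] * fderiv ℝ φ z v) :=
      (i (h.int1 x₀) v u).sub (i (h.int1 x₀) u v)
    have k2 : Integrable (fun z => pb (chartAt (E d) x₀).symm β z ![v] * fderiv ℝ φ z u -
        pb (chartAt (E d) x₀).symm β z ![u] * fderiv ℝ φ z v) :=
      (i (h'.int1 x₀) v u).sub (i (h'.int1 x₀) u v)
    have e3 : ∫ z, ((pb (chartAt (E d) x₀).symm α z ![v] * fderiv ℝ φ z u -
        pb (chartAt (E d) x₀).symm α z ![u] * fderiv ℝ φ z v) +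
        (pb (chartAt (E d) x₀).symm β z ![v] * fderiv ℝ φ z u -
        pb (chartAt (E d) x₀).symm β z ![u] * fderiv ℝ φ z v)) =
        - ((∫ z, pb (chartAt (E d) x₀).symm η z ![u, v] * φ z) +
          ∫ z, pb (chartAt (E d) x₀).symm ξ z ![u, v] * φ z) := by
      rw [integral_add k1 k2, e1, e2]
      ring
    rw [← integral_add (j (h.int2 x₀)) (j (h'.int2 x₀))] at e3
    calc ∫ z, (pb (chartAt (E d) x₀).symm (α + β) z ![v] * fderiv ℝ φ z u -
        pb (chartAt (E d) x₀).symm (α + β) z ![u] * fderiv ℝ φ z v) =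
        ∫ z, ((pb (chartAt (E d) x₀).symm α z ![v] * fderiv ℝ φ z u -
        pb (chartAt (E d) x₀).symm α z ![u] * fderiv ℝ φ z v) +
        (pb (chartAt (E d) x₀).symm β z ![v] * fderiv ℝ φ z u -
        pb (chartAt (E d) x₀).symm β z ![u] * fderiv ℝ φ z v)) := by
          refine integral_congr_ae (Eventually.of_forall fun z => ?_)
          show (pb (chartAt (E d) x₀).symm α z ![v] + pb (chartAt (E d) x₀).symm β z ![v]) * _ -
            (pb (chartAt (E d) x₀).symm α z ![u] + pb (chartAt (E d) x₀).symm β z ![u]) * _ = _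
          ring
      _ = _ := e3
      _ = _ := by
          congr 1
          refine integral_congr_ae (Eventually.of_forall fun z => ?_)
          show _ = (pb (chartAt (E d) x₀).symm η z ![u, v] +
            pb (chartAt (E d) x₀).symm ξ z ![u, v]) * _
          ring

theorem weakPrim_neg {α : Form d X 1} {η : Form d X 2} (h : WeakPrim α η) :
    WeakPrim (-α) (-η) := by
  refine ⟨fun x₀ => ?_, fun x₀ => ?_, fun x₀ φ hφ hc ht u v => ?_⟩
  · exact locInt_neg (h.int1 x₀)
  · exact locInt_neg (h.int2 x₀)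
  · have e1 := h.weak x₀ φ hφ hc ht u v
    calc ∫ z, (pb (chartAt (E d) x₀).symm (-α) z ![v] * fderiv ℝ φ z u -
        pb (chartAt (E d) x₀).symm (-α) z ![u] * fderiv ℝ φ z v) =
        ∫ z, - (pb (chartAt (E d) x₀).symm α z ![v] * fderiv ℝ φ z u -
        pb (chartAt (E d) x₀).symm α z ![u] * fderiv ℝ φ z v) := by
          refine integral_congr_ae (Eventually.of_forall fun z => ?_)
          show (- pb (chartAt (E d) x₀).symm α z ![v]) * _ -
            (- pb (chartAt (E d) x₀).symm α z ![u]) * _ = _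
          ring
      _ = _ := by rw [integral_neg, e1]
      _ = - ∫ z, - (pb (chartAt (E d) x₀).symm η z ![u, v] * φ z) := by rw [integral_neg]
      _ = _ := by
          congr 1
          refine integral_congr_ae (Eventually.of_forall fun z => ?_)
          show _ = (- pb (chartAt (E d) x₀).symm η z ![u, v]) * _
          ring

theorem weakPrim_zero : WeakPrim (0 : Form d X 1) (0 : Form d X 2) := by
  refine ⟨fun x₀ => ?_, fun x₀ => ?_, fun x₀ φ hφ hc ht u v => ?_⟩
  · have h : LocallyIntegrable (fun _ : E d => (0 : (E d) [⋀^Fin 1]→L[ℝ] ℝ)) :=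
      locallyIntegrable_const 0
    exact h.locallyIntegrableOn _
  · have h : LocallyIntegrable (fun _ : E d => (0 : (E d) [⋀^Fin 2]→L[ℝ] ℝ)) :=
      locallyIntegrable_const 0
    exact h.locallyIntegrableOn _
  · show ∫ z, ((0 : ℝ) * fderiv ℝ φ z u - (0 : ℝ) * fderiv ℝ φ z v) = - ∫ z, (0 : ℝ) * φ z
    simp

end Pool.Agent.H819.DR
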