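import Mathlib
import Pool.Agent.H819.DR.Def
import Pool.Agent.H819.LG.Moll2

/-!
# One smoothing step
-/

set_option autoImplicit false

open Set Filter Topology MeasureTheory Metric
open scoped Manifold ContDiff ENNReal NNReal Convolution

noncomputable section

namespace Pool.Agent.H819.DR

open Pool.Agent.Y501.SY
open Pool.Agent.H819
open Pool.Agent.H819.LG (WeakPrim extF WeakExt)
open Pool.Agent.H819.LN (WeakClosed)

variable {d : ℕ} {X : Type} [TopologicalSpace X] [ChartedSpace (E d) X] [IsManifold (𝓡 d) ∞ X]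

/-- smoothness at a point in a fixed chart -/
theorem smX_iff {k : ℕ} {θ : Form d X k} {x₀ p : X} (hp : p ∈ (chartAt (E d) x₀).source) :
    SmX θ p ↔ SmAt x₀ θ (chartAt (E d) x₀ p) := by
  unfold SmX
  have hpp := mem_chart_source (E d) p
  constructor
  · intro h
    have hz : chartAt (E d) x₀ p ∈ LG.trD (d := d) x₀ p := by
      refine ⟨(chartAt (E d) x₀).map_source hp, ?_⟩
      show (chartAt (E d) x₀).symm (chartAt (E d) x₀ p) ∈ (chartAt (E d) p).source
      rw [(chartAt (E d) x₀).left_inv hp]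
      exact hpp
    refine SmAt.change hz ?_
    have e : LG.tr x₀ p (chartAt (E d) x₀ p) = chartAt (E d) p p := by
      unfold LG.tr
      rw [(chartAt (E d) x₀).left_inv hp]
    rw [e]
    exact h
  · intro h
    have hz : chartAt (E d) p p ∈ LG.trD (d := d) p x₀ := by
      refine ⟨(chartAt (E d) p).map_source hpp, ?_⟩
      show (chartAt (E d) p).symm (chartAt (E d) p p) ∈ (chartAt (E d) x₀).source
      rw [(chartAt (E d) p).left_inv hpp]
      exact hp
    refine SmAt.change hz ?_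
    have e : LG.tr p x₀ (chartAt (E d) p p) = chartAt (E d) x₀ p := by
      unfold LG.tr
      rw [(chartAt (E d) p).left_inv hpp]
    rw [e]
    exact h

/-- smoothness at the point with coordinate `z` -/
theorem smX_symm {k : ℕ} {θ : Form d X k} {x₀ : X} {z : E d}
    (hz : z ∈ (chartAt (E d) x₀).target) : SmX θ ((chartAt (E d) x₀).symm z) ↔ SmAt x₀ θ z := by
  rw [smX_iff ((chartAt (E d) x₀).map_target hz), (chartAt (E d) x₀).right_inv hz]

/-- the set of points of smoothness is open -/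
theorem isOpen_smX {k : ℕ} (θ : Form d X k) : IsOpen {p : X | SmX θ p} := by
  rw [isOpen_iff_mem_nhds]
  intro p hp
  have hpp := mem_chart_source (E d) p
  have h1 : ∀ᶠ z in 𝓝 (chartAt (E d) p p), SmAt p θ z := Filter.Eventually.eventually_nhds hp
  have h2 : ContinuousAt (chartAt (E d) p) p := (chartAt (E d) p).continuousAt hpp
  filter_upwards [h2.eventually h1, (chartAt (E d) p).open_source.mem_nhds hpp] with q hq hqs
  exact (smX_iff hqs).2 hq

omit [IsManifold (𝓡 d) ∞ X] in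
/-- locality -/
theorem SmX.congr {k : ℕ} {θ θ' : Form d X k} {p : X} (h : SmX θ p) (he : ∀ᶠ q in 𝓝 p, θ' q = θ q) :
    SmX θ' p := by
  unfold SmX SmAt at h ⊢
  have hpp := mem_chart_source (E d) p
  have hc : ContinuousAt (chartAt (E d) p).symm (chartAt (E d) p p) :=
    (chartAt (E d) p).continuousAt_symm ((chartAt (E d) p).map_source hpp)
  have h1 : ∀ᶠ z in 𝓝 (chartAt (E d) p p), θ' ((chartAt (E d) p).symm z) =
      θ ((chartAt (E d) p).symm z) := by
    refine hc.eventually (p := fun q => θ' q = θ q) ?_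
    rw [(chartAt (E d) p).left_inv hpp]
    exact he
  filter_upwards [h, h1.eventually_nhds] with z hz hz1
  refine hz.congr_of_eventuallyEq ?_
  filter_upwards [hz1] with y hy
  exact LG.pb_congr_form _ hy

/-- sums of weakly closed forms -/
theorem weakClosed_add {T : Set (E d)} {f g : E d → (E d) [⋀^Fin 2]→L[ℝ] ℝ}
    (hf : LocallyIntegrableOn f T) (hg : LocallyIntegrableOn g T) (wf : WeakClosed T f)
    (wg : WeakClosed T g) : WeakClosed T (fun z => f z + g z) := by
  intro φ hφ hc ht a b c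
  have w1 := wf φ hφ hc ht a b c
  have w2 := wg φ hφ hc ht a b c
  have hSc : IsCompact (tsupport φ) := hc
  have iT : ∀ {θ : E d → (E d) [⋀^Fin 2]→L[ℝ] ℝ} (_ : LocallyIntegrableOn θ T)
      (v : Fin 2 → E d) (w : E d), Integrable (fun z => θ z v * fderiv ℝ φ z w) :=
    fun hθ v w => int_test hθ (fd_cont' hφ w) hSc ht fd_zero v
  have j1 := LN.int3_int (iT hf ![b, c] a) (iT hf ![c, a] b) (iT hf ![a, b] c)
  have j2 := LN.int3_int (iT hg ![b, c] a) (iT hg ![c, a] b) (iT hg ![a, b] c)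
  have e1 := integral_add j1 j2
  rw [w1, w2, add_zero] at e1
  rw [← e1]
  refine integral_congr_ae (Eventually.of_forall fun z => ?_)
  simp only [ContinuousAlternatingMap.add_apply]
  ring

/-- weakly closed forms which agree on an open set -/
theorem weakClosed_congr {T V : Set (E d)} (hVT : V ⊆ T) {f g : E d → (E d) [⋀^Fin 2]→L[ℝ] ℝ}
    (wf : WeakClosed T f) (h : ∀ z ∈ V, g z = f z) : WeakClosed V g := by
  intro φ hφ hc ht a b c
  rw [← wf φ hφ hc (ht.trans hVT) a b c]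
  refine integral_congr_ae (Eventually.of_forall fun z => ?_)
  by_cases hz : z ∈ V
  · simp only [h z hz]
  · have hz' : z ∉ tsupport φ := fun h' => hz (ht h')
    have h0 : ∀ w : E d, fderiv ℝ φ z w = 0 := fun w => fd_zero z hz'
    simp only [h0, mul_zero, add_zero]

theorem ind_int {F : Type} [NormedAddCommGroup F] {f g : E d → F} {N : Set (E d)}
    (hN : MeasurableSet N) (h : IntegrableOn f N) (hg : ∀ z ∈ N, g z = f z)
    (hg0 : ∀ z, z ∉ N → g z = 0) : Integrable g := by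
  have h2 : IntegrableOn g N := h.congr_fun (fun z hz => (hg z hz).symm) hN
  refine (integrableOn_iff_integrable_of_support_subset ?_).1 h2
  intro z hz
  by_contra hzN
  exact hz (hg0 z hzN)

/-- a smooth cut-off function -/
theorem exists_cut {K V : Set (E d)} (hK : IsCompact K) (hV : IsOpen V) (hKV : K ⊆ V) :
    ∃ χ : E d → ℝ, ContDiff ℝ ∞ χ ∧ IsCompact (tsupport χ) ∧ tsupport χ ⊆ V ∧
      ∀ z ∈ K, ∀ᶠ y in 𝓝 z, χ y = 1 := by
  obtain ⟨L, hL, hKL, hLV⟩ := exists_compact_between hK hV hKV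
  obtain ⟨κ, hκ0, hκ1, -⟩ := exists_contMDiffMap_zero_one_nhds_of_isClosed (n := (⊤ : ℕ∞)) (𝓡 d)
    (isOpen_interior (s := L)).isClosed_compl hK.isClosed (by
      rw [Set.disjoint_left]
      intro x hx hx'
      exact hx (hKL hx'))
  have hsub : tsupport (fun z => κ z) ⊆ L := by
    refine closure_minimal ?_ hL.isClosed
    intro z hz
    by_contra hzL
    have h1 : z ∈ (interior L)ᶜ := fun h => hzL (interior_subset h)
    exact hz ((hκ0.filter_mono (nhds_le_nhdsSet h1)).self_of_nhds)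
  refine ⟨fun z => κ z, κ.contMDiff.contDiff, hL.of_isClosed_subset (isClosed_tsupport _) hsub,
    hsub.trans hLV, fun z hz => hκ1.filter_mono (nhds_le_nhdsSet hz)⟩

/-- wedge product with zero -/
theorem wedge1_zero (b : (E d) [⋀^Fin 1]→L[ℝ] ℝ) : wedge1 (0 : E d →L[ℝ] ℝ) b = 0 := by
  rw [← LG.wedgeL_apply, map_zero]
  rfl

theorem wl_bb : IsBoundedBilinearMap ℝ
    (fun p : (E d →L[ℝ] ℝ) × ((E d) [⋀^Fin 1]→L[ℝ] ℝ) => LG.wedgeL (V := E d) p.1 p.2) := by
  exact (LG.wedgeL (V := E d)).isBoundedBilinearMap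

/-- the correction term -/
def corr (χ : E d → ℝ) (A : E d → (E d) [⋀^Fin 1]→L[ℝ] ℝ)
    (η : E d → (E d) [⋀^Fin 2]→L[ℝ] ℝ) (z : E d) : (E d) [⋀^Fin 2]→L[ℝ] ℝ :=
  wedge1 (fderiv ℝ χ z) (A z) + χ z • η z

theorem corr_smooth {χ : E d → ℝ} (hχ : ContDiff ℝ ∞ χ) {A : E d → (E d) [⋀^Fin 1]→L[ℝ] ℝ}
    {η : E d → (E d) [⋀^Fin 2]→L[ℝ] ℝ} {z : E d} (hA : ContDiffAt ℝ ∞ A z)
    (hη : ContDiffAt ℝ ∞ η z) : ContDiffAt ℝ ∞ (corr χ A η) z := by
  have h1 : ContDiffAt ℝ ∞ (fderiv ℝ χ) z := (hχ.fderiv_right (by simp)).contDiffAt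
  have h0 : ContDiff ℝ ∞ (fun p : (E d →L[ℝ] ℝ) × ((E d) [⋀^Fin 1]→L[ℝ] ℝ) =>
      LG.wedgeL (V := E d) p.1 p.2) := wl_bb.contDiff
  have h2 : ContDiffAt ℝ ∞ (fun z => LG.wedgeL (V := E d) (fderiv ℝ χ z) (A z)) z :=
    ContDiffAt.comp (g := fun p : (E d →L[ℝ] ℝ) × ((E d) [⋀^Fin 1]→L[ℝ] ℝ) =>
      LG.wedgeL (V := E d) p.1 p.2) (f := fun z => (fderiv ℝ χ z, A z)) z h0.contDiffAt
      (h1.prodMk hA)
  exact h2.add (hχ.contDiffAt.smul hη)

theorem corr_one {χ : E d → ℝ} {A : E d → (E d) [⋀^Fin 1]→L[ℝ] ℝ}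
    {η : E d → (E d) [⋀^Fin 2]→L[ℝ] ℝ} {z : E d} (h : ∀ᶠ y in 𝓝 z, χ y = 1) :
    corr χ A η z = η z := by
  have h1 : χ =ᶠ[𝓝 z] fun _ => (1 : ℝ) := h
  unfold corr
  rw [h1.fderiv_eq, h1.eq_of_nhds, fderiv_fun_const]
  rw [one_smul]
  show wedge1 (0 : E d →L[ℝ] ℝ) (A z) + η z = η z
  rw [wedge1_zero, zero_add]

theorem corr_off {χ : E d → ℝ} {A : E d → (E d) [⋀^Fin 1]→L[ℝ] ℝ}
    {η : E d → (E d) [⋀^Fin 2]→L[ℝ] ℝ} {z : E d} (h : z ∉ tsupport χ) :
    corr χ A η z = 0 := by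
  unfold corr
  rw [fderiv_of_notMem_tsupport (𝕜 := ℝ) h, image_eq_zero_of_notMem_tsupport h, wedge1_zero,
    zero_smul, zero_add]

/-- **One smoothing step.**

Proof.  Write `e = chartAt (E d) x₀`.  `O = {p | SmX θ p}` is open (`SmAt` is an eventual property and
`SmAt.change` transports it between charts) and contains the compact set `Z`; choose a compact
`Z'` with `Z ⊆ interior Z'`, `Z' ⊆ O` (`exists_compact_between`; `X` is locally compact).  Choose a
smooth `χ : E d → ℝ` with values in `[0, 1]`, equal to `1` near `K`, with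
`S = tsupport χ ⊆ interior N` compact (`exists_contMDiffMap_zero_one_nhds_of_isClosed` as in
`DR/HomS.lean`).  The set `Q = {z ∈ S | e.symm z ∈ Z'}` is compact and contained in the open set
`{z ∈ e.target | SmAt x₀ θ z}`; choose `r > 0` such that `closedBall z r ⊆ interior N` for `z ∈ S` and
`closedBall z r ⊆ {z ∈ e.target | SmAt x₀ θ z} =: W` for `z ∈ Q` (thickenings of compact sets), and a
`ContDiffBump ρ` at `0` with `rOut = r`.
`θ̃ = indicator N (pb e.symm θ)` is integrable on `E d` and weakly closed on `interior N`.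
`hA_weak` with `V = interior N`, `U = {z | closedBall z r ⊆ interior N}` (contains a neighbourhood of
`S`, shrink `r` if necessary; `tsupport φ ⊆ S` is what one needs, so take `U = S`, no openness of `U`
is required in `hA_weak`): `d (hA ρ θ̃) = ρ * θ̃ - θ̃` weakly on `U`.
Put `b = χ • hA ρ θ̃` and `c = wedge1 (fderiv χ) (hA ρ θ̃) + χ • (ρ * θ̃ - θ̃)`: then `WeakExt b c`
(`LG.local_weak` in `LG/Wk.lean`; test functions `φ` are replaced by `χ φ`), both are integrable and
vanish outside the compact set `S ⊆ e.target`, so `WeakPrim (extF x₀ b) (extF x₀ c)` by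
`weakPrim_extF` of `DR/ExtW.lean`.  Put `θ' = θ + extF x₀ c`, `α = extF x₀ b`.
`L1Closed θ'`: integrability of the sum; closedness: the identity for `θ` plus the one of
`LN.weak_part` for `extF x₀ c` (`LN/WkCl.lean`).
Smoothness of `θ'` at `p ∈ Z`: if `p` is not in the compact set `e.symm '' S` then `θ' = θ` near `p`
(`LG.extF_zero`, the complement of `e.symm '' S` is open).  Otherwise `p = e.symm z`, `z ∈ Q` and
for `z'` near `z` in `S` also `e.symm z' ∈ Z'`, i.e. `z' ∈ Q`, hence `hA ρ θ̃` is smooth near `z`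
(`hA_smooth`; `θ̃` is smooth on `W ∩ interior N`; to have it near `z`, note that
`closedBall z r ⊆ W ∩ interior N` implies the same for `z'` near `z`), `ρ * θ̃` is smooth
(`HasCompactSupport.contDiff_convolution_left`) and `θ` is smooth near `z`, so `c` is smooth near `z`,
and `SmAt x₀ θ' z`; change the chart with `SmAt.change`.  Smoothness at `e.symm z`, `z ∈ K`: near `z`
one has `χ = 1`, `fderiv χ = 0`, so in the chart `θ' = θ + ρ * θ̃ - θ̃ = ρ * θ̃`. -/
theorem smooth_step [T2Space X] [CompactSpace X] {θ : Form d X 2} (hθ : L1Closed θ) {x₀ : X}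
    {K N : Set (E d)} (hK : IsCompact K) (hN : IsCompact N) (hKN : K ⊆ interior N)
    (hNt : N ⊆ (chartAt (E d) x₀).target) {Z : Set X} (hZ : IsCompact Z)
    (hs : ∀ p ∈ Z, SmX θ p) :
    ∃ (θ' : Form d X 2) (α : Form d X 1), L1Closed θ' ∧ WeakPrim α (θ' - θ) ∧
      (∀ p ∈ Z, SmX θ' p) ∧ ∀ z ∈ K, SmX θ' ((chartAt (E d) x₀).symm z) := by
  set θ₀ : E d → (E d) [⋀^Fin 2]→L[ℝ] ℝ := pb (chartAt (E d) x₀).symm θ with hθ₀
  have hθi : LocallyIntegrableOn θ₀ (chartAt (E d) x₀).target := hθ.int x₀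
  have hθc : WeakClosed (chartAt (E d) x₀).target θ₀ := hθ.closed x₀
  -- the truncated form
  obtain ⟨θt, hθt⟩ : ∃ θt : E d → (E d) [⋀^Fin 2]→L[ℝ] ℝ, θt = N.indicator θ₀ := ⟨_, rfl⟩
  have hti : Integrable θt := by
    have h1 : IntegrableOn θ₀ N := hθi.integrableOn_compact_subset hNt hN
    exact ind_int hN.measurableSet h1 (fun z hz => by rw [hθt, indicator_of_mem hz])
      (fun z hz => by rw [hθt, indicator_of_notMem hz])
  have hteq : ∀ z ∈ interior N, θt z = θ₀ z := by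
    intro z hz
    rw [hθt]
    exact indicator_of_mem (interior_subset hz) _
  have htc : WeakClosed (interior N) θt :=
    weakClosed_congr (interior_subset.trans hNt) hθc hteq
  -- compact sets
  obtain ⟨Z', hZ', hZZ', hZ'O⟩ := exists_compact_between hZ (isOpen_smX θ) hs
  obtain ⟨χ, hχ, hSc, hSN, hχ1⟩ := exists_cut hK isOpen_interior hKN
  set S := tsupport χ with hS
  have hST : S ⊆ (chartAt (E d) x₀).target := hSN.trans (interior_subset.trans hNt)
  obtain ⟨Q, hQd⟩ : ∃ Q : Set (E d), Q = S ∩ (chartAt (E d) x₀).symm ⁻¹' Z' := ⟨_, rfl⟩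
  have hQc : IsCompact Q := by
    refine hSc.of_isClosed_subset ?_ (by rw [hQd]; exact inter_subset_left)
    rw [hQd]
    exact ((chartAt (E d) x₀).continuousOn_symm.mono hST).preimage_isClosed_of_isClosed
      hSc.isClosed hZ'.isClosed
  obtain ⟨W, hWd⟩ : ∃ W : Set (E d), W = {z | SmAt x₀ θ z} ∩ interior N := ⟨_, rfl⟩
  have hWo : IsOpen W := by
    rw [hWd]
    refine IsOpen.inter ?_ isOpen_interior
    exact isOpen_setOfPred_eventually_nhds
  have hQW : Q ⊆ W := by
    intro z hz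
    rw [hQd] at hz
    rw [hWd]
    refine ⟨(smX_symm (hST hz.1)).1 (hZ'O hz.2), hSN hz.1⟩
  have hθW : ContDiffOn ℝ ∞ θt W := by
    intro z hz
    have hz' := hz
    rw [hWd] at hz'
    have h1 : ContDiffAt ℝ ∞ θ₀ z := Filter.Eventually.self_of_nhds hz'.1
    have h2 : θt =ᶠ[𝓝 z] θ₀ := by
      filter_upwards [isOpen_interior.mem_nhds hz'.2] with y hy
      exact hteq y hy
    exact (h1.congr_of_eventuallyEq h2).contDiffWithinAt
  obtain ⟨δ₁, hδ₁, hδ₁N⟩ := hSc.exists_cthickening_subset_open isOpen_interior hSN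
  obtain ⟨δ₂, hδ₂, hδ₂W⟩ := hQc.exists_cthickening_subset_open hWo hQW
  obtain ⟨r, hr⟩ : ∃ r : ℝ, r = min δ₁ (δ₂ / 2) := ⟨_, rfl⟩
  have hr0 : 0 < r := by rw [hr]; exact lt_min hδ₁ (by linarith)
  have hr1 : r ≤ δ₁ := by rw [hr]; exact min_le_left _ _
  have hr2 : r ≤ δ₂ / 2 := by rw [hr]; exact min_le_right _ _
  obtain ⟨ρ, hρ⟩ : ∃ ρ : ContDiffBump (0 : E d), ρ.rOut = r :=
    ⟨⟨r / 2, r, by linarith, by linarith⟩, rfl⟩
  have hSV : ∀ z ∈ S, closedBall z ρ.rOut ⊆ interior N := by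
    intro z hz y hy
    refine hδ₁N (closedBall_subset_cthickening hz δ₁ ?_)
    rw [hρ] at hy
    exact closedBall_subset_closedBall hr1 hy
  have hQV : ∀ z ∈ Q, ∀ z' ∈ ball z (δ₂ / 2), closedBall z' ρ.rOut ⊆ W := by
    intro z hz z' hz' y hy
    refine hδ₂W (closedBall_subset_cthickening hz δ₂ ?_)
    rw [hρ] at hy
    rw [mem_closedBall] at hy ⊢
    rw [mem_ball] at hz'
    calc dist y z ≤ dist y z' + dist z' z := dist_triangle _ _ _
      _ ≤ δ₂ := by linarith
  -- the homotopy operator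
  obtain ⟨hAi, hAw⟩ := hA_weak ρ hti isOpen_interior hSV htc
  obtain ⟨A, hA⟩ : ∃ A, A = hA ρ θt := ⟨_, rfl⟩
  obtain ⟨C, hC⟩ : ∃ C : E d → (E d) [⋀^Fin 2]→L[ℝ] ℝ,
    C = (ρ.normed volume ⋆[ContinuousLinearMap.lsmul ℝ ℝ, volume] θt) := ⟨_, rfl⟩
  rw [← hA] at hAi
  rw [← hA, ← hC] at hAw
  have hρc : Continuous (ρ.normed volume) := (ρ.contDiff_normed (n := 0)).continuous
  have hρs : HasCompactSupport (ρ.normed volume) := ρ.hasCompactSupport_normed
  have hCi : Integrable C := by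
    rw [hC]
    exact (hρc.integrable_of_hasCompactSupport hρs).integrable_convolution _ hti
  have hCs : ContDiff ℝ ∞ C := by
    rw [hC]
    exact hρs.contDiff_convolution_left (ContinuousLinearMap.lsmul ℝ ℝ) (μ := volume)
      ρ.contDiff_normed hti.locallyIntegrable
  obtain ⟨η, hη⟩ : ∃ η : E d → (E d) [⋀^Fin 2]→L[ℝ] ℝ, η = fun z => C z - θt z := ⟨_, rfl⟩
  have hηi : Integrable η := by rw [hη]; exact hCi.sub hti
  have hw : ∀ φ : E d → ℝ, ContDiff ℝ ∞ φ → HasCompactSupport φ → tsupport φ ⊆ S → ∀ u v : E d,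
      ∫ z, (A z ![v] * fderiv ℝ φ z u - A z ![u] * fderiv ℝ φ z v) = - ∫ z, η z ![u, v] * φ z := by
    intro φ h1 h2 h3 u v
    rw [hAw φ h1 h2 h3 u v, hη]
  have hχ0 : ∀ z, z ∉ S → χ z = 0 := fun z hz => image_eq_zero_of_notMem_tsupport hz
  obtain ⟨ib, ic, hWE⟩ := LG.local_weak hSc (Subset.refl S) hχ hχ0
    (hAi.locallyIntegrable.locallyIntegrableOn S) (hηi.locallyIntegrable.locallyIntegrableOn S) hw
  obtain ⟨b, hb⟩ : ∃ b : E d → (E d) [⋀^Fin 1]→L[ℝ] ℝ, b = fun z => χ z • A z := ⟨_, rfl⟩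
  obtain ⟨c, hc⟩ : ∃ c : E d → (E d) [⋀^Fin 2]→L[ℝ] ℝ, c = corr χ A η := ⟨_, rfl⟩
  have hc' : (fun z => wedge1 (fderiv ℝ χ z) (A z) + χ z • η z) = c := by rw [hc]; rfl
  rw [← hb] at ib hWE
  rw [hc'] at ic hWE
  have hb0 : ∀ z, z ∉ S → b z = 0 := by
    intro z hz
    rw [hb]
    simp only
    rw [hχ0 z hz, zero_smul]
  have hc0 : ∀ z, z ∉ S → c z = 0 := by
    intro z hz
    rw [hc]
    exact corr_off hz
  have hWP : WeakPrim (extF x₀ b) (extF x₀ c) := weakPrim_extF ib ic hWE hSc hST hb0 hc0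
  have hpb : ∀ z ∈ (chartAt (E d) x₀).target,
      pb (chartAt (E d) x₀).symm (θ + extF x₀ c) =ᶠ[𝓝 z] fun y => θ₀ y + c y := by
    intro z hz
    filter_upwards [(chartAt (E d) x₀).open_target.mem_nhds hz] with y hy
    have h1 := LG.extF_symm x₀ c hy
    show pb (chartAt (E d) x₀).symm θ y + pb (chartAt (E d) x₀).symm (extF x₀ c) y = _
    rw [h1]
  refine ⟨θ + extF x₀ c, extF x₀ b, ⟨fun x₁ => ?_, fun x₁ => ?_⟩, ?_, ?_, ?_⟩
  · exact locInt_add (hθ.int x₁) (hWP.int2 x₁)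
  · exact weakClosed_add (hθ.int x₁) (hWP.int2 x₁) (hθ.closed x₁) (LN.weak_part hWP x₁)
  · rw [add_sub_cancel_left]
    exact hWP
  · intro p hp
    by_cases hpS : p ∈ (chartAt (E d) x₀).symm '' S
    · obtain ⟨z, hz, rfl⟩ := hpS
      rw [smX_symm (hST hz)]
      have hzQ : z ∈ Q := by
        rw [hQd]
        exact ⟨hz, (interior_subset (hZZ' hp) : (chartAt (E d) x₀).symm z ∈ Z')⟩
      unfold SmAt
      have hb1 : ball z (δ₂ / 2) ∈ 𝓝 z := ball_mem_nhds z (by linarith)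
      filter_upwards [hb1, (chartAt (E d) x₀).open_target.mem_nhds (hST hz)] with z' hz' hzT
      refine ContDiffAt.congr_of_eventuallyEq ?_ (hpb z' hzT)
      have hsub := hQV z hzQ z' hz'
      have hz'W : z' ∈ W := hsub (mem_closedBall_self (by rw [hρ]; exact hr0.le))
      have s1 : ContDiffAt ℝ ∞ A z' := by
        rw [hA]
        exact hA_smooth ρ hWo hθW hsub
      have s2 : ContDiffAt ℝ ∞ θt z' := hθW.contDiffAt (hWo.mem_nhds hz'W)
      have s3 : ContDiffAt ℝ ∞ θ₀ z' := by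
        rw [hWd] at hz'W
        exact Filter.Eventually.self_of_nhds hz'W.1
      have s4 : ContDiffAt ℝ ∞ η z' := by
        rw [hη]
        exact hCs.contDiffAt.sub s2
      rw [hc]
      exact s3.add (corr_smooth hχ s1 s4)
    · refine (hs p hp).congr ?_
      have hcl : IsClosed ((chartAt (E d) x₀).symm '' S) :=
        (hSc.image_of_continuousOn ((chartAt (E d) x₀).continuousOn_symm.mono hST)).isClosed
      filter_upwards [hcl.isOpen_compl.mem_nhds hpS] with q hq
      show θ q + extF x₀ c q = θ q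
      rw [LG.extF_zero x₀ c hc0 hq, add_zero]
  · intro z hz
    have hzN : z ∈ interior N := hKN hz
    have hzT : z ∈ (chartAt (E d) x₀).target := hNt (interior_subset hzN)
    rw [smX_symm hzT]
    unfold SmAt
    filter_upwards [(hχ1 z hz).eventually_nhds, isOpen_interior.mem_nhds hzN] with z' hz' hzN'
    have hzT' : z' ∈ (chartAt (E d) x₀).target := hNt (interior_subset hzN')
    refine ContDiffAt.congr_of_eventuallyEq (hCs.contDiffAt (x := z')) ?_
    refine (hpb z' hzT').trans ?_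
    filter_upwards [hz'.eventually_nhds, isOpen_interior.mem_nhds hzN'] with y hy hyN
    rw [hc, corr_one hy, hη]
    simp only
    rw [hteq y hyN]
    abel

end Pool.Agent.H819.DR
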