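import Mathlib
import Pool.Agent.H819.DR.Step
import Pool.Agent.H819.LN.Main

/-!
# The de Rham theorem for two-forms with integrable coefficients
-/

set_option autoImplicit false

open Set Filter Topology MeasureTheory Metric
open scoped Manifold ContDiff ENNReal NNReal

noncomputable section

namespace Pool.Agent.H819.DR

open Pool.Agent.Y501.SY
open Pool.Agent.H819
open Pool.Agent.H819.LG (WeakPrim)
open Pool.Agent.H819.LN (WeakClosed)

variable {d : ℕ} {X : Type} [TopologicalSpace X] [ChartedSpace (E d) X] [IsManifold (𝓡 d) ∞ X]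

/-- the induction over finitely many pieces of charts -/
theorem deRham_ind [T2Space X] [CompactSpace X] {θ : Form d X 2} (hθ : L1Closed θ) {n : ℕ}
    (x : Fin n → X) (K N : Fin n → Set (E d)) (hK : ∀ i, IsCompact (K i))
    (hN : ∀ i, IsCompact (N i)) (hKN : ∀ i, K i ⊆ interior (N i))
    (hNt : ∀ i, N i ⊆ (chartAt (E d) (x i)).target) (m : ℕ) :
    ∃ (θ' : Form d X 2) (α : Form d X 1), L1Closed θ' ∧ WeakPrim α (θ' - θ) ∧
      ∀ i : Fin n, (i : ℕ) < m → ∀ z ∈ K i, SmX θ' ((chartAt (E d) (x i)).symm z) := by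
  induction m with
  | zero =>
    refine ⟨θ, 0, hθ, ?_, fun i hi => absurd hi (Nat.not_lt_zero _)⟩
    rw [sub_self]
    exact weakPrim_zero
  | succ m ih =>
    obtain ⟨θ₁, α₁, h1, h2, h3⟩ := ih
    by_cases hm : m < n
    · have hZ : IsCompact (⋃ i : Fin n, ⋃ _ : (i : ℕ) < m, (chartAt (E d) (x i)).symm '' K i) := by
        refine isCompact_iUnion fun i => isCompact_iUnion fun _ => ?_
        exact (hK i).image_of_continuousOn ((chartAt (E d) (x i)).continuousOn_symm.mono
          ((hKN i).trans (interior_subset.trans (hNt i))))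
      obtain ⟨θ₂, α₂, k1, k2, k3, k4⟩ := smooth_step h1 (hK ⟨m, hm⟩) (hN ⟨m, hm⟩) (hKN ⟨m, hm⟩)
        (hNt ⟨m, hm⟩) hZ (by
          intro p hp
          obtain ⟨i, hi⟩ := mem_iUnion.1 hp
          obtain ⟨hi1, z, hz, rfl⟩ := mem_iUnion.1 hi
          exact h3 i hi1 z hz)
      refine ⟨θ₂, α₂ + α₁, k1, ?_, ?_⟩
      · have h4 := weakPrim_add k2 h2
        rw [sub_add_sub_cancel] at h4
        exact h4
      · intro i hi z hz
        rcases Nat.lt_succ_iff_lt_or_eq.1 hi with h | h
        · exact k3 _ (mem_iUnion.2 ⟨i, mem_iUnion.2 ⟨h, z, hz, rfl⟩⟩)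
        · have h5 : i = ⟨m, hm⟩ := Fin.ext h
          subst h5
          exact k4 z hz
    · refine ⟨θ₁, α₁, h1, h2, fun i hi z hz => h3 i ?_ z hz⟩
      have := i.2
      omega

/-- **The de Rham theorem for two-forms with integrable coefficients.**

Proof.  Cover the compact manifold by finitely many sets `(chartAt (E d) (x i)).symm '' (K i)`,
`K i ⊆ interior (N i)` compact pieces of charts (e.g. balls: `LN.exists_ord_cover` in `LN/Main.lean`
with `Y = O = univ`, `K i = closedBall _ (t i)`, `N i = closedBall _ (2 * t i)`).  Apply `smooth_step`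
successively, with `Z` the union of the images of the `K j`, `j < i` (compact); the weak primitives
add up (`weakPrim_add`, `weakPrim_neg`, `weakPrim_zero` in `DR/Def.lean`).  The last form `w` is smooth
near all points, so smooth (`isSmooth_of_smAt`), and closed (`closed_of_weak`). -/
theorem weak_deRham [T2Space X] [CompactSpace X] {θ : Form d X 2} (hθ : L1Closed θ) :
    ∃ (w : Form d X 2) (α : Form d X 1), IsSmooth w ∧ IsClosedForm w ∧ WeakPrim α (θ - w) := by
  obtain ⟨n, x, t, ht, htt, hcov⟩ := LN.exists_ord_cover (d := d) (Y := (univ : Set X))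
    (O := univ) isCompact_univ isOpen_univ (subset_univ _)
  obtain ⟨w, α, h1, h2, h3⟩ := deRham_ind hθ x
    (fun i => closedBall (chartAt (E d) (x i) (x i)) (t i))
    (fun i => closedBall (chartAt (E d) (x i) (x i)) (2 * t i))
    (fun i => isCompact_closedBall _ _) (fun i => isCompact_closedBall _ _)
    (fun i => (closedBall_subset_ball (by have := ht i; linarith)).trans
      (interior_maximal ball_subset_closedBall isOpen_ball))
    (fun i => (closedBall_subset_closedBall (by have := ht i; linarith)).trans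
      ((htt i).trans inter_subset_left)) n
  have hsm : ∀ p : X, SmX w p := by
    intro p
    obtain ⟨i, z, hz, rfl⟩ := hcov p (mem_univ p)
    exact h3 i i.2 z hz
  have hs : IsSmooth w := isSmooth_of_smAt hsm
  refine ⟨w, -α, hs, ?_, ?_⟩
  · exact closed_of_weak hs h1.closed
  · have h4 := weakPrim_neg h2
    rw [neg_sub] at h4
    exact h4

end Pool.Agent.H819.DR
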