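import Mathlib
import Pool.Agent.H819.DR.HomA
import Pool.Agent.H819.DR.Smo
import Pool.Agent.H819.BC.Poinc

/-!
# Local primitives of weakly closed two-forms
-/

set_option autoImplicit false

open Set Filter Topology MeasureTheory Metric
open scoped Manifold ContDiff ENNReal NNReal Convolution

noncomputable section

namespace Pool.Agent.H819.DR

open Pool.Agent.Y501.SY (E)
open Pool.Agent.H819.LN (WeakClosed)

variable {d : ℕ}

theorem ind_int_lp {F : Type} [NormedAddCommGroup F] {f : E d → F} {s : Set (E d)}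
    (hs : MeasurableSet s) (h : IntegrableOn f s) : Integrable (s.indicator f) :=
  h.integrable_indicator hs

/-- the forms restricted to a compact subset -/
theorem cut_form {U : Set (E d)} {τ : E d → (E d) [⋀^Fin 2]→L[ℝ] ℝ}
    (hτ : LocallyIntegrableOn τ U) (hcl : WeakClosed U τ) {x : E d} {R : ℝ}
    (hR : closedBall x R ⊆ U) :
    Integrable ((closedBall x R).indicator τ) ∧
      WeakClosed (ball x R) ((closedBall x R).indicator τ) := by
  refine ⟨?_, ?_⟩
  · exact ind_int_lp (F := (E d) [⋀^Fin 2]→L[ℝ] ℝ) isClosed_closedBall.measurableSet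
      (hτ.integrableOn_compact_subset hR (isCompact_closedBall _ _))
  · intro φ hφ hc ht a b c
    have h1 := hcl φ hφ hc (ht.trans (ball_subset_closedBall.trans hR)) a b c
    rw [← h1]
    refine integral_congr_ae (Eventually.of_forall fun z => ?_)
    simp only
    by_cases hz : z ∈ closedBall x R
    · rw [indicator_of_mem hz]
    · have h2 : fderiv ℝ φ z = 0 := fderiv_of_notMem_tsupport (𝕜 := ℝ)
        fun h => hz (ball_subset_closedBall (ht h))
      rw [h2]
      simp

/-- the mollification of a weakly closed form is closed -/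
theorem moll_closed {V : Set (E d)} {θ : E d → (E d) [⋀^Fin 2]→L[ℝ] ℝ} (hθ : Integrable θ)
    (hcl : WeakClosed V θ) (ρ : ContDiffBump (0 : E d)) {z : E d}
    (hz : closedBall z ρ.rOut ⊆ V) :
    extDeriv (ρ.normed volume ⋆[ContinuousLinearMap.lsmul ℝ ℝ, volume] θ) z = 0 := by
  have hρ : ContDiff ℝ ∞ (ρ.normed volume) := ρ.contDiff_normed
  have hρc : HasCompactSupport (ρ.normed volume) := ρ.hasCompactSupport_normed
  have hρ1 : ContDiff ℝ 1 (ρ.normed volume) := ρ.contDiff_normed
  have hsm : ContDiff ℝ ∞ (ρ.normed volume ⋆[ContinuousLinearMap.lsmul ℝ ℝ, volume] θ) :=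
    hρc.contDiff_convolution_left (ContinuousLinearMap.lsmul ℝ ℝ) (μ := volume) hρ
      hθ.locallyIntegrable
  have hd : DifferentiableAt ℝ (ρ.normed volume ⋆[ContinuousLinearMap.lsmul ℝ ℝ, volume] θ) z :=
    hsm.differentiable (by simp) z
  have hval : ∀ (u : E d) (w : Fin 2 → E d),
      fderiv ℝ (ρ.normed volume ⋆[ContinuousLinearMap.lsmul ℝ ℝ, volume] θ) z u w =
      ∫ y, fderiv ℝ (ρ.normed volume) (z - y) u * θ y w := by
    intro u w
    obtain ⟨h2, h1⟩ := Pool.Agent.H819.LG.moll_fderiv hθ.locallyIntegrable ρ z u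
    rw [h1]
    have h3 := (Pool.Agent.Y431.SY.ev w).integral_comp_comm h2
    rw [Pool.Agent.Y431.SY.ev_apply] at h3
    rw [← h3, ← integral_sub_left_eq_self (fun t => Pool.Agent.Y431.SY.ev w
      (fderiv ℝ (ρ.normed volume) t u • θ (z - t))) volume z]
    refine integral_congr_ae (Eventually.of_forall fun y => ?_)
    simp only [sub_sub_cancel, map_smul, Pool.Agent.Y431.SY.ev_apply, smul_eq_mul]
  -- the test function
  have hφ : ContDiff ℝ ∞ (fun y => ρ.normed volume (z - y)) := hρ.comp (by fun_prop)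
  have hφc : HasCompactSupport (fun y => ρ.normed volume (z - y)) := by
    have := hρc.comp_homeomorph (Homeomorph.subLeft z)
    exact this
  have hφt : tsupport (fun y => ρ.normed volume (z - y)) ⊆ V := by
    refine Subset.trans (closure_minimal ?_ isClosed_closedBall) hz
    intro y hy
    have h1 : z - y ∈ Function.support (ρ.normed volume) := hy
    rw [ρ.support_normed_eq, mem_ball, dist_zero_right] at h1
    rw [mem_closedBall, dist_comm, dist_eq_norm]
    exact h1.le
  have hφd : ∀ y u, fderiv ℝ (fun y => ρ.normed volume (z - y)) y u =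
      - fderiv ℝ (ρ.normed volume) (z - y) u := by
    intro y u
    have h1 : HasFDerivAt (fun y : E d => z - y) (-ContinuousLinearMap.id ℝ (E d)) y := by
      have := (hasFDerivAt_id (𝕜 := ℝ) y).const_sub z
      exact this
    have h2 : HasFDerivAt (ρ.normed volume) (fderiv ℝ (ρ.normed volume) (z - y)) (z - y) :=
      (hρ1.differentiable (by simp) _).hasFDerivAt
    have h3 : fderiv ℝ (fun y => ρ.normed volume (z - y)) y =
        (fderiv ℝ (ρ.normed volume) (z - y)).comp (-ContinuousLinearMap.id ℝ (E d)) :=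
      (h2.comp y h1).fderiv
    rw [h3]
    simp
  have hi : ∀ (u : E d) (w : Fin 2 → E d),
      Integrable (fun y => fderiv ℝ (ρ.normed volume) (z - y) u * θ y w) := by
    intro u w
    have h1 := (Pool.Agent.H819.LG.moll_fderiv hθ.locallyIntegrable ρ z u).1
    have h2 := ((Pool.Agent.Y431.SY.ev w).integrable_comp h1).comp_sub_left z
    refine h2.congr (Eventually.of_forall fun y => ?_)
    simp [Pool.Agent.Y431.SY.ev_apply]
  ext v
  have hv : v = ![v 0, v 1, v 2] := by
    funext i; fin_cases i <;> rfl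
  rw [hv, extDeriv_cyc hd]
  have hw := hcl _ hφ hφc hφt (v 0) (v 1) (v 2)
  simp only [hφd] at hw
  unfold cyc
  rw [hval, hval, hval, ← Pool.Agent.H819.LN.int3 (hi _ _) (hi _ _) (hi _ _)]
  show _ = (0 : ℝ)
  rw [← neg_eq_zero, ← integral_neg, ← hw]
  refine integral_congr_ae (Eventually.of_forall fun y => ?_)
  simp only
  ring

/-- integration by parts for smooth one-forms -/
theorem ibp_one {b : E d → (E d) [⋀^Fin 1]→L[ℝ] ℝ} (hb : ContDiff ℝ ∞ b) {φ : E d → ℝ}
    (hφ : ContDiff ℝ ∞ φ) (hc : HasCompactSupport φ) (u v : E d) :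
    Integrable (fun z => b z ![v] * fderiv ℝ φ z u) ∧
    Integrable (fun z => extDeriv b z ![u, v] * φ z) ∧
    ∫ z, (b z ![v] * fderiv ℝ φ z u - b z ![u] * fderiv ℝ φ z v) =
      - ∫ z, extDeriv b z ![u, v] * φ z := by
  have hbw : ∀ w : E d, ContDiff ℝ ∞ (fun z => b z ![w]) := fun w =>
    (Pool.Agent.Y431.SY.ev (![w] : Fin 1 → E d)).contDiff.comp hb
  have hD : ∀ w : E d, Continuous (fun z => fderiv ℝ φ z w) := fun w =>
    (fd_cont hφ).clm_apply continuous_const
  have hDc : ∀ w : E d, HasCompactSupport (fun z => fderiv ℝ φ z w) := fun w =>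
    (hc.fderiv (𝕜 := ℝ)).comp_left (g := fun L : E d →L[ℝ] ℝ => L w) rfl
  have k1 : ∀ u w : E d, Integrable (fun z => fderiv ℝ (fun z => b z ![w]) z u * φ z) :=
    fun u w => (((fd_cont (hbw w)).clm_apply continuous_const).mul
      hφ.continuous).integrable_of_hasCompactSupport hc.mul_left
  have k2 : ∀ u w : E d, Integrable (fun z => b z ![w] * fderiv ℝ φ z u) :=
    fun u w => ((hbw w).continuous.mul (hD u)).integrable_of_hasCompactSupport (hDc u).mul_left
  have k3 : ∀ w : E d, Integrable (fun z => b z ![w] * φ z) :=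
    fun w => ((hbw w).continuous.mul hφ.continuous).integrable_of_hasCompactSupport hc.mul_left
  have ibp : ∀ u w : E d, ∫ z, b z ![w] * fderiv ℝ φ z u =
      - ∫ z, fderiv ℝ (fun z => b z ![w]) z u * φ z := fun u w =>
    integral_mul_fderiv_eq_neg_fderiv_mul_of_integrable (k1 u w) (k2 u w) (k3 w)
      (fun z _ => (hbw w).differentiable (by simp) z) (fun z _ => hφ.differentiable (by simp) z)
  have hext : ∀ z, extDeriv b z ![u, v] =
      fderiv ℝ (fun z => b z ![v]) z u - fderiv ℝ (fun z => b z ![u]) z v := by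
    intro z
    rw [extDeriv_apply (hb.differentiable (by simp) z), Fin.sum_univ_two]
    have e0 : (0 : Fin 2).removeNth ![u, v] = ![v] := by
      funext i; fin_cases i; rfl
    have e1 : (1 : Fin 2).removeNth ![u, v] = ![u] := by
      funext i; fin_cases i; rfl
    rw [e0, e1]
    simp
    ring
  have e : (fun z => extDeriv b z ![u, v] * φ z) = fun z =>
      fderiv ℝ (fun z => b z ![v]) z u * φ z - fderiv ℝ (fun z => b z ![u]) z v * φ z := by
    funext z
    rw [hext]
    ring
  refine ⟨k2 u v, ?_, ?_⟩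
  · rw [e]
    exact (k1 u v).sub (k1 v u)
  · rw [e, integral_sub (k1 u v) (k1 v u), integral_sub (k2 u v) (k2 v u), ibp, ibp]
    ring

/-- **Local primitives.**

Proof.  Choose `R > 0` with `closedBall x (3 * R) ⊆ U`, `τ'` equal to `τ` on `closedBall x (3 * R)`, zero
elsewhere: integrable, weakly closed on `ball x (3 * R)`.  Take a bump `ρ` at `0` with `rOut = R`.
`hA_weak` with `V = ball x (3 * R)`, `U = ball x (2 * R)`: `hA ρ τ'` is integrable and
`d (hA ρ τ') = ρ * τ' - τ'` weakly on `ball x (2 * R)`.  The convolution `s = ρ * τ'` is smooth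
(`HasCompactSupport.contDiff_convolution_left`) and closed on `ball x (2 * R)`: by
`LG.moll_fderiv` (`LG/Moll2.lean`) its derivative is `∫ fderiv ρ (z - z') u • τ' z'`, and
`extDeriv s z ![a, b, c] = 0` is weak closedness for the test function `z' ↦ ρ (z - z')`, supported in
`closedBall z R ⊆ ball x (3 * R)` (`extDeriv_apply` and the cyclic sum as in `LN.smooth_part` or
`extDeriv_cyc` in `DR/Smo.lean`).  `BC.exists_prim` (`BC/Poinc.lean`, namespace
`Pool.Agent.H819.BC`) gives a smooth compactly supported `b` with `extDeriv b = s` near `x`, say on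
`ball x r`, `r ≤ R`.  `η = b - hA ρ τ'` has the property: integrate by parts for the smooth `b`
(`LN.int_fderiv_zero`, or `weakPrim_of_smooth` in `LG/Conv.lean` for the pattern) and
`ρ * τ' - (ρ * τ' - τ') = τ'`. -/
theorem local_weak_primitive {U : Set (E d)} (hU : IsOpen U)
    {τ : E d → (E d) [⋀^Fin 2]→L[ℝ] ℝ} (hτ : LocallyIntegrableOn τ U) (hcl : WeakClosed U τ)
    {x : E d} (hx : x ∈ U) :
    ∃ (r : ℝ) (η : E d → (E d) [⋀^Fin 1]→L[ℝ] ℝ), 0 < r ∧ closedBall x r ⊆ U ∧ Integrable η ∧
      ∀ φ : E d → ℝ, ContDiff ℝ ∞ φ → HasCompactSupport φ → tsupport φ ⊆ ball x r → ∀ u v : E d,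
        ∫ z, (η z ![v] * fderiv ℝ φ z u - η z ![u] * fderiv ℝ φ z v) =
          - ∫ z, τ z ![u, v] * φ z := by
  obtain ⟨ε, hε, hεU⟩ := Metric.nhds_basis_closedBall.mem_iff.1 (hU.mem_nhds hx)
  set R : ℝ := ε / 3 with hR
  have hRp : 0 < R := by positivity
  have h3R : closedBall x (3 * R) ⊆ U := by
    have : 3 * R = ε := by rw [hR]; ring
    rw [this]
    exact hεU
  set θ : E d → (E d) [⋀^Fin 2]→L[ℝ] ℝ := (closedBall x (3 * R)).indicator τ with hθ
  obtain ⟨hθi, hθc⟩ : Integrable θ ∧ WeakClosed (ball x (3 * R)) θ := cut_form hτ hcl h3R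
  let ρ : ContDiffBump (0 : E d) := ⟨R / 2, R, by positivity, by linarith⟩
  have hρR : ρ.rOut = R := rfl
  have hUV : ∀ z ∈ ball x (2 * R), closedBall z ρ.rOut ⊆ ball x (3 * R) := by
    intro z hz y hy
    rw [mem_closedBall, hρR] at hy
    rw [mem_ball] at hz ⊢
    calc dist y x ≤ dist y z + dist z x := dist_triangle _ _ _
      _ < R + 2 * R := by linarith
      _ = 3 * R := by ring
  obtain ⟨hAi, hAw⟩ := hA_weak ρ hθi isOpen_ball hUV hθc
  set s := (ρ.normed volume ⋆[ContinuousLinearMap.lsmul ℝ ℝ, volume] θ) with hs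
  have hρ : ContDiff ℝ ∞ (ρ.normed volume) := ρ.contDiff_normed
  have hsm : ContDiff ℝ ∞ s :=
    ρ.hasCompactSupport_normed.contDiff_convolution_left (ContinuousLinearMap.lsmul ℝ ℝ)
      (μ := volume) hρ hθi.locallyIntegrable
  have hscl : ∀ z ∈ ball x (2 * R), extDeriv s z = 0 := fun z hz =>
    moll_closed hθi hθc ρ (hUV z hz)
  obtain ⟨b, Q, hb, hQ, -, -, hbQ, -, hbs⟩ := Pool.Agent.H819.BC.exists_prim
    (T := ball x (2 * R)) isOpen_ball hsm.contDiffOn hscl (q := x) (O := univ) univ_mem
    (mem_ball_self (by positivity))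
  have hbc : HasCompactSupport b := HasCompactSupport.intro hQ hbQ
  have hbi : Integrable b := hb.continuous.integrable_of_hasCompactSupport hbc
  obtain ⟨r₀, hr₀, hr₀s⟩ := Metric.eventually_nhds_iff_ball.1 hbs
  refine ⟨min r₀ R, fun z => b z - hA ρ θ z, lt_min hr₀ hRp, ?_, hbi.sub hAi, ?_⟩
  · refine (closedBall_subset_closedBall ?_).trans h3R
    exact (min_le_right _ _).trans (by linarith)
  intro φ hφ hc ht u v
  have ht0 : tsupport φ ⊆ ball x r₀ := ht.trans (ball_subset_ball (min_le_left _ _))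
  have htR : tsupport φ ⊆ ball x R := ht.trans (ball_subset_ball (min_le_right _ _))
  have ht2 : tsupport φ ⊆ ball x (2 * R) := htR.trans (ball_subset_ball (by linarith))
  obtain ⟨M', hM'⟩ := (hc.fderiv (𝕜 := ℝ)).exists_bound_of_continuous (fd_cont hφ)
  have hDb : ∀ w z : E d, ‖fderiv ℝ φ z w‖ ≤ M' * ‖w‖ := fun w z =>
    ((fderiv ℝ φ z).le_opNorm w).trans (mul_le_mul_of_nonneg_right (hM' z) (norm_nonneg _))
  have hD : ∀ w : E d, Continuous (fun z => fderiv ℝ φ z w) := fun w =>
    (fd_cont hφ).clm_apply continuous_const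
  have iA : ∀ w w' : E d, Integrable (fun z => hA ρ θ z ![w] * fderiv ℝ φ z w') := by
    intro w w'
    have h1 := (Pool.Agent.Y431.SY.ev (![w] : Fin 1 → E d)).integrable_comp hAi
    exact h1.mul_bdd (hD w').aestronglyMeasurable (Eventually.of_forall fun z => hDb w' z)
  have iB1 := (ibp_one hb hφ hc u v).1
  have iB2 := (ibp_one hb hφ hc v u).1
  obtain ⟨-, iE, hB⟩ := ibp_one hb hφ hc u v
  have hAw' := hAw φ hφ hc ht2 u v
  have e1 : ∫ z, ((b z - hA ρ θ z) ![v] * fderiv ℝ φ z u -
      (b z - hA ρ θ z) ![u] * fderiv ℝ φ z v) =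
      (∫ z, (b z ![v] * fderiv ℝ φ z u - b z ![u] * fderiv ℝ φ z v)) -
      ∫ z, (hA ρ θ z ![v] * fderiv ℝ φ z u - hA ρ θ z ![u] * fderiv ℝ φ z v) := by
    have j1 : Integrable (fun z => b z ![v] * fderiv ℝ φ z u - b z ![u] * fderiv ℝ φ z v) :=
      iB1.sub iB2
    have j2 : Integrable (fun z => hA ρ θ z ![v] * fderiv ℝ φ z u -
        hA ρ θ z ![u] * fderiv ℝ φ z v) := (iA v u).sub (iA u v)
    rw [← integral_sub j1 j2]
    refine integral_congr_ae (Eventually.of_forall fun z => ?_)
    simp only [ContinuousAlternatingMap.sub_apply]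
    ring
  rw [e1, hB, hAw']
  have hφc : Continuous φ := hφ.continuous
  have iθ : Integrable (fun z => θ z ![u, v] * φ z) := itm hθi ![u, v] hφc hc
  have iS : Integrable (fun z => (s z - θ z) ![u, v] * φ z) := by
    have h1 : Continuous (fun z => s z ![u, v]) :=
      (Pool.Agent.Y431.SY.ev (![u, v] : Fin 2 → E d)).continuous.comp hsm.continuous
    have h2 : Integrable (fun z => s z ![u, v] * φ z) :=
      (h1.mul hφc).integrable_of_hasCompactSupport hc.mul_left
    refine (h2.sub iθ).congr (Eventually.of_forall fun z => ?_)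
    simp only [Pi.sub_apply, ContinuousAlternatingMap.sub_apply]
    ring
  rw [sub_neg_eq_add, neg_add_eq_sub, ← integral_sub iS iE, ← integral_neg]
  refine integral_congr_ae (Eventually.of_forall fun z => ?_)
  simp only
  by_cases hz : z ∈ tsupport φ
  · have h1 : extDeriv b z = s z := hr₀s z (ht0 hz)
    have h2 : θ z = τ z := by
      rw [hθ]
      exact indicator_of_mem (ball_subset_closedBall (ball_subset_ball (by linarith) (htR hz))) _
    rw [h1, h2, ContinuousAlternatingMap.sub_apply]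
    ring
  · rw [image_eq_zero_of_notMem_tsupport hz]
    ring

end Pool.Agent.H819.DR
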